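import Pool.Agent.Helper1.Cayley.Hamming

/-!
Avoidability of finite graphs is as hard as non-3-edge-colourability: definitions.
Graphs are given by lists of edges between words; the reduction replaces every edge by a constant
template of triangles.
-/

set_option autoImplicit false

namespace Pool.Agent.AVD

open SimpleGraph

/-! ### Finite graphs as lists of edges -/

/-- Words over `{true, false}`. -/
abbrev Str := List Bool

/-- A list of (oriented) edges; the vertices are words. -/
abbrev EList := List (Str × Str)

/-- No loops, and no edge occurs in both orientations. -/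
def IsSimple (L : EList) : Prop := ∀ e ∈ L, e.1 ≠ e.2 ∧ (e.2, e.1) ∉ L

/-- The vertices of the graph given by `L`: the end points of the edges. -/
def verts (L : EList) : Set Str := {s | ∃ e ∈ L, s = e.1 ∨ s = e.2}

/-- The graph given by a list of edges. -/
def graphOf (L : EList) : SimpleGraph (verts L) :=
  SimpleGraph.fromRel fun x y => ((x : Str), (y : Str)) ∈ L

/-- The encoding of a list of edges as a word over `Option Bool`; `none` is the end marker of a
word. -/
def encL (L : EList) : List (Option Bool) :=
  L.flatMap fun e => e.1.map some ++ none :: (e.2.map some ++ [none])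

/-! ### The template -/

/-- The vertices of the graph of the reduction, for an edge set on the set `S`. -/
inductive Nm (S : Type*) where
  /-- the points of the block -/
  | B (d : Fin 3 → ZMod 3)
  /-- four points for every vertex `u` -/
  | P (i : Fin 4) (u : S)
  /-- fourteen points for every edge `(u, v)` -/
  | E (j : Fin 14) (u v : S)
deriving DecidableEq

variable {S : Type*}

/-- The basis vectors. -/
def bv (i : Fin 3) : Fin 3 → ZMod 3 := Pi.single i 1

/-- The lines of the block. -/
def blockLines (S : Type*) : List (Nm S × Nm S × Nm S) :=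
  (List.finRange 3).flatMap fun i => (List.finRange 3).flatMap fun a =>
    (List.finRange 3).map fun b =>
      let d : Fin 3 → ZMod 3 := fun j =>
        if j = i then 0 else if j = i + 1 then (a.val : ZMod 3) else (b.val : ZMod 3)
      (Nm.B d, Nm.B (d + bv i), Nm.B (d + 2 • bv i))

/-- The lines of the template of the edge `(u, v)`. -/
def lines (u v : S) : List (Nm S × Nm S × Nm S) :=
  blockLines S ++
  [(.B 0, .P 0 u, .P 1 u), (.B 0, .P 0 v, .P 1 v), (.B 1, .P 2 u, .P 3 u),
   (.P 0 u, .E 0 u v, .E 1 u v), (.P 0 v, .E 0 u v, .E 2 u v),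
   (.P 0 u, .E 3 u v, .E 4 u v), (.E 0 u v, .E 5 u v, .E 6 u v), (.P 0 v, .E 7 u v, .E 8 u v),
   (.E 3 u v, .E 5 u v, .E 9 u v), (.E 7 u v, .E 5 u v, .E 10 u v),
   (.E 3 u v, .E 11 u v, .E 12 u v), (.E 11 u v, .P 2 u, .E 13 u v)]

/-- The three edges of a line. -/
def triEdges (l : Nm S × Nm S × Nm S) : List (Nm S × Nm S) :=
  [(l.1, l.2.1), (l.2.1, l.2.2), (l.2.2, l.1)]

/-- The edges of the template of the edge `(u, v)`. -/
def tmpl (u v : S) : List (Nm S × Nm S) := (lines u v).flatMap triEdges

/-- Adjacency of names in the graph of the reduction of the edge set `D`. -/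
def NAdj (D : Set (S × S)) (x y : Nm S) : Prop :=
  ∃ e ∈ D, (x, y) ∈ tmpl e.1 e.2 ∨ (y, x) ∈ tmpl e.1 e.2

/-! ### The names as words -/

/-- Every letter of the word is written twice. -/
def dbl (u : Str) : Str := u.flatMap fun b => [b, b]

/-- The number of a point of the block. -/
def bIdx (d : Fin 3 → ZMod 3) : ℕ := (d 0).val + 3 * (d 1).val + 9 * (d 2).val

/-- The word of a name: the number of the kind of the name in unary, and the words of the
vertices. -/
def enc : Nm Str → Str
  | .B d => List.replicate (bIdx d) true ++ [false]
  | .P i u => List.replicate (27 + i.val) true ++ false :: u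
  | .E j u v => List.replicate (31 + j.val) true ++ false :: (dbl u ++ true :: false :: v)

/-- The reduction. -/
def red (L : EList) : EList :=
  L.flatMap fun e => (tmpl e.1 e.2).map fun q => (enc q.1, enc q.2)

/-! ### Immersions into ternary Hamming graphs -/

/-- A locally injective homomorphism into the ternary Hamming graph with the set `I` of
coordinates. -/
structure IsImm {V I : Type*} (Y : SimpleGraph V) (φ : V → I →₀ ZMod 3) : Prop where
  edge : ∀ x y, Y.Adj x y → ∃ (i : I) (c : ZMod 3), c ≠ 0 ∧ φ y = φ x + Finsupp.single i c
  inj : ∀ x y z, Y.Adj x y → Y.Adj x z → φ y = φ z → y = z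

/-- `h` is an element of `H` or the inverse of one. -/
def Pm {G : Type*} [Group G] (H : Set G) (h : G) : Prop := h ∈ H ∨ h⁻¹ ∈ H

/-- `h` is in `H`, up to inversion, and is the product of two such elements. -/
def Tri {G : Type*} [Group G] (H : Set G) (h : G) : Prop :=
  Pm H h ∧ ∃ a b, Pm H a ∧ Pm H b ∧ h = a * b

end Pool.Agent.AVD
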