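import Pool.Agent.AVD.Defs

/-!
A colouring of the edges gives an embedding of the graph of the reduction.
-/

set_option autoImplicit false

namespace Pool.Agent.AVD

section

variable {S : Type*}

open Classical in
/-- unit function -/
noncomputable def gu (u : S) (t : ZMod 3) : S → ZMod 3 := Pi.single u t

open Classical in
theorem gu_apply (u w : S) (t : ZMod 3) : gu u t w = if w = u then t else 0 := by
  unfold gu
  rw [Pi.single_apply]

/-- the block part of the position -/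
def dd (c : S × S → Fin 3) : Nm S → (Fin 3 → ZMod 3)
  | .B d => d
  | .P i _ => if i = 0 ∨ i = 1 then 0 else 1
  | .E j u v =>
    if j = 0 ∨ j = 1 ∨ j = 2 then 0
    else if j = 3 ∨ j = 5 ∨ j = 7 ∨ j = 9 ∨ j = 10 then bv (c (u, v))
    else if j = 4 ∨ j = 6 ∨ j = 8 then 2 • bv (c (u, v))
    else if j = 11 then bv (c (u, v)) + bv (c (u, v) + 1)
    else if j = 12 then bv (c (u, v)) + 2 • bv (c (u, v) + 1)
    else bv (c (u, v)) + bv (c (u, v) + 1) + 2 • bv (c (u, v) + 2)

/-- the other part of the position -/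
noncomputable def gg : Nm S → (S → ZMod 3)
  | .B _ => 0
  | .P i u => if i = 0 ∨ i = 2 then gu u 1 else gu u 2
  | .E j u v =>
    if j = 0 ∨ j = 5 ∨ j = 6 then gu u 1 + gu v 1
    else if j = 1 ∨ j = 9 then gu u 1 + gu v 2
    else if j = 2 ∨ j = 10 then gu u 2 + gu v 1
    else if j = 7 ∨ j = 8 then gu v 1
    else gu u 1

/-- on a line of the Hamming graph -/
def HLd (c : S × S → Fin 3) (l : Nm S × Nm S × Nm S) : Prop :=
  (∃ i : Fin 3, dd c l.2.1 = dd c l.1 + bv i ∧ dd c l.2.2 = dd c l.1 + 2 • bv i ∧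
    gg l.2.1 = gg l.1 ∧ gg l.2.2 = gg l.1) ∨
  (∃ w : S, ∃ t : ZMod 3, t ≠ 0 ∧ gg l.2.1 = gg l.1 + gu w t ∧ gg l.2.2 = gg l.1 + gu w (2 * t) ∧
    dd c l.2.1 = dd c l.1 ∧ dd c l.2.2 = dd c l.1)

theorem bv_sum : ∀ k : Fin 3, (bv k + bv (k + 1) + bv (k + 2) : Fin 3 → ZMod 3) = 1 := by
  decide

theorem gu_two (w : S) : gu w 1 + gu w 1 = gu w 2 := by
  funext x
  rw [Pi.add_apply, gu_apply, gu_apply]
  split_ifs <;> decide

theorem gu_two' (w : S) : gu w (2 * 1) = gu w 2 := by norm_num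

theorem block_HL (c : S × S → Fin 3) : ∀ l ∈ blockLines S, HLd c l := by
  intro l hl
  simp only [blockLines, List.mem_flatMap, List.mem_map] at hl
  obtain ⟨i, -, a, -, b, -, rfl⟩ := hl
  exact Or.inl ⟨i, rfl, rfl, rfl, rfl⟩

theorem lines_HL (c : S × S → Fin 3) (u v : S) : ∀ l ∈ lines u v, HLd c l := by
  intro l hl
  unfold lines at hl
  rw [List.mem_append] at hl
  rcases hl with hl | hl
  · exact block_HL c l hl
  simp only [List.mem_cons, List.not_mem_nil, or_false] at hl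
  rcases hl with rfl | rfl | rfl | rfl | rfl | rfl | rfl | rfl | rfl | rfl | rfl | rfl
  · exact Or.inr ⟨u, 1, one_ne_zero, by simp [gg], by simp [gg], by simp [dd], by simp [dd]⟩
  · exact Or.inr ⟨v, 1, one_ne_zero, by simp [gg], by simp [gg], by simp [dd], by simp [dd]⟩
  · exact Or.inr ⟨u, 1, one_ne_zero, by simp [gg], by simp [gg], by simp [dd], by simp [dd]⟩
  · exact Or.inr ⟨v, 1, one_ne_zero, by simp [gg], by simp [gg], by simp [dd], by simp [dd]⟩
  · refine Or.inr ⟨u, 1, one_ne_zero, ?_, ?_, by simp [dd], by simp [dd]⟩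
    · simp [gg, add_comm]
    · simp [gg, add_comm]
  · exact Or.inl ⟨c (u, v), by simp [dd], by simp [dd], by simp [gg], by simp [gg]⟩
  · exact Or.inl ⟨c (u, v), by simp [dd], by simp [dd], by simp [gg], by simp [gg]⟩
  · exact Or.inl ⟨c (u, v), by simp [dd], by simp [dd], by simp [gg], by simp [gg]⟩
  · exact Or.inr ⟨v, 1, one_ne_zero, by simp [gg], by simp [gg], by simp [dd], by simp [dd]⟩
  · refine Or.inr ⟨u, 1, one_ne_zero, ?_, ?_, by simp [dd], by simp [dd]⟩
    · simp [gg, add_comm]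
    · simp [gg, add_comm]
  · exact Or.inl ⟨c (u, v) + 1, by simp [dd], by simp [dd], by simp [gg], by simp [gg]⟩
  · refine Or.inl ⟨c (u, v) + 2, ?_, by simp [dd], by simp [gg], by simp [gg]⟩
    simp only [dd]
    have := bv_sum (c (u, v))
    simp [this]

/-- the position -/
noncomputable def pos (c : S × S → Fin 3) (x : Nm S) : Fin 3 ⊕ S → ZMod 3 :=
  Sum.elim (dd c x) (gg x)

theorem pos_of_HL (c : S × S → Fin 3) (x y z : Nm S) (h : HLd c (x, y, z)) :
    (∃ i, pos c x i ≠ pos c y i ∧ ∀ j, j ≠ i → pos c x j = pos c y j) ∧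
    (∃ i, pos c y i ≠ pos c z i ∧ ∀ j, j ≠ i → pos c y j = pos c z j) ∧
    (∃ i, pos c z i ≠ pos c x i ∧ ∀ j, j ≠ i → pos c z j = pos c x j) := by
  classical
  rcases h with ⟨i, h1, h2, h3, h4⟩ | ⟨w, t, ht, h1, h2, h3, h4⟩
  · simp only at h1 h2 h3 h4
    refine ⟨⟨Sum.inl i, ?_, ?_⟩, ⟨Sum.inl i, ?_, ?_⟩, ⟨Sum.inl i, ?_, ?_⟩⟩
    · simp [pos, h1, bv]
    · rintro (j | j) hj
      · have hj' : j ≠ i := fun h => hj (by rw [h])
        simp [pos, h1, bv, Pi.single_eq_of_ne hj']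
      · simp [pos, h3]
    · simp only [pos, Sum.elim_inl, h1, h2, bv, Pi.add_apply, Pi.smul_apply, Pi.single_eq_same]
      intro h
      have := add_left_cancel h
      revert this
      decide
    · rintro (j | j) hj
      · have hj' : j ≠ i := fun h => hj (by rw [h])
        simp [pos, h1, h2, bv, Pi.single_eq_of_ne hj']
      · simp [pos, h3, h4]
    · simp only [pos, Sum.elim_inl, h2, bv, Pi.add_apply, Pi.smul_apply, Pi.single_eq_same]
      intro h
      have := add_eq_left.1 h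
      revert this
      decide
    · rintro (j | j) hj
      · have hj' : j ≠ i := fun h => hj (by rw [h])
        simp [pos, h2, bv, Pi.single_eq_of_ne hj']
      · simp [pos, h4]
  · simp only at h1 h2 h3 h4
    have e1 : ∀ t : ZMod 3, t ≠ 0 → t ≠ 2 * t := by decide
    have e2 : ∀ t : ZMod 3, t ≠ 0 → 2 * t ≠ 0 := by decide
    refine ⟨⟨Sum.inr w, ?_, ?_⟩, ⟨Sum.inr w, ?_, ?_⟩, ⟨Sum.inr w, ?_, ?_⟩⟩
    · simp only [pos, Sum.elim_inr, h1, Pi.add_apply, gu_apply, if_true]
      intro h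
      exact ht (add_eq_left.1 h.symm)
    · rintro (j | j) hj
      · simp [pos, h3]
      · have hj' : j ≠ w := fun h => hj (by rw [h])
        simp [pos, h1, gu_apply, hj']
    · simp only [pos, Sum.elim_inr, h1, h2, Pi.add_apply, gu_apply, if_true]
      intro h
      exact e1 t ht (add_left_cancel h)
    · rintro (j | j) hj
      · simp [pos, h3, h4]
      · have hj' : j ≠ w := fun h => hj (by rw [h])
        simp [pos, h1, h2, gu_apply, hj']
    · simp only [pos, Sum.elim_inr, h2, Pi.add_apply, gu_apply, if_true]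
      intro h
      exact e2 t ht (add_eq_left.1 h)
    · rintro (j | j) hj
      · simp [pos, h4]
      · have hj' : j ≠ w := fun h => hj (by rw [h])
        simp [pos, h2, gu_apply, hj']

end


/-! ### injectivity -/

/-- shapes of the second part of a position -/
inductive Kc (S : Type*) where
  | z
  | one (w : S)
  | two (w : S)
  | s (a b : S)
  | o (a b : S)

namespace Kc

variable {S : Type*}

/-- the function of a shape -/
noncomputable def G : Kc S → (S → ZMod 3)
  | z => 0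
  | one w => gu w 1
  | two w => gu w 2
  | s a b => gu a 1 + gu b 1
  | o a b => gu a 1 + gu b 2

/-- the set of ones -/
def s1 : Kc S → Set S
  | z => ∅
  | one w => {w}
  | two _ => ∅
  | s a b => {a, b}
  | o a _ => {a}

/-- the set of twos -/
def s2 : Kc S → Set S
  | z => ∅
  | one _ => ∅
  | two w => {w}
  | s _ _ => ∅
  | o _ b => {b}

/-- the two points are different -/
def good : Kc S → Prop
  | s a b => a ≠ b
  | o a b => a ≠ b
  | _ => True

theorem mem_s1 (k : Kc S) (hk : k.good) (w : S) : w ∈ k.s1 ↔ k.G w = 1 := by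
  cases k with
  | z => simp [s1, G]
  | one u => by_cases h : w = u <;> simp [s1, G, gu_apply, h]
  | two u => 
    by_cases h : w = u <;> simp [s1, G, gu_apply, h]
    decide
  | s a b =>
    have hab : a ≠ b := hk
    by_cases h : w = a
    · subst h; simp [s1, G, gu_apply, hab]
    · by_cases h' : w = b
      · subst h'; simp [s1, G, gu_apply, h]
      · simp [s1, G, gu_apply, h, h']
  | o a b =>
    have hab : a ≠ b := hk
    by_cases h : w = a
    · subst h; simp [s1, G, gu_apply, hab]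
    · by_cases h' : w = b
      · subst h'
        simp [s1, G, gu_apply, h]
        decide
      · simp [s1, G, gu_apply, h, h']

theorem mem_s2 (k : Kc S) (hk : k.good) (w : S) : w ∈ k.s2 ↔ k.G w = 2 := by
  cases k with
  | z =>
    simp [s2, G]
    decide
  | one u =>
    by_cases h : w = u
    · simp [s2, G, gu_apply, h]
      decide
    · simp [s2, G, gu_apply, h]
      decide
  | two u =>
    by_cases h : w = u
    · simp [s2, G, gu_apply, h]
    · simp [s2, G, gu_apply, h]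
      decide
  | s a b =>
    have hab : a ≠ b := hk
    by_cases h : w = a
    · subst h
      simp [s2, G, gu_apply, hab]
      decide
    · by_cases h' : w = b
      · subst h'
        simp [s2, G, gu_apply, h]
        decide
      · simp [s2, G, gu_apply, h, h']
        decide
  | o a b =>
    have hab : a ≠ b := hk
    by_cases h : w = a
    · subst h
      simp [s2, G, gu_apply, hab]
      decide
    · by_cases h' : w = b
      · subst h'
        simp [s2, G, gu_apply, h]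
      · simp [s2, G, gu_apply, h, h']
        decide

theorem s_eq {k k' : Kc S} (hk : k.good) (hk' : k'.good) (h : k.G = k'.G) :
    k.s1 = k'.s1 ∧ k.s2 = k'.s2 := by
  constructor
  · ext w
    rw [mem_s1 k hk, mem_s1 k' hk', h]
  · ext w
    rw [mem_s2 k hk, mem_s2 k' hk', h]

theorem pair_ne {a b w : S} (hab : a ≠ b) (h : ({a, b} : Set S) = {w}) : False := by
  have h1 : a ∈ ({w} : Set S) := by rw [← h]; simp
  have h2 : b ∈ ({w} : Set S) := by rw [← h]; simp
  rw [Set.mem_singleton_iff] at h1 h2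
  exact hab (h1.trans h2.symm)

/-- equivalence of shapes -/
def eqv : Kc S → Kc S → Prop
  | z, z => True
  | one w, one w' => w = w'
  | two w, two w' => w = w'
  | s a b, s a' b' => (a = a' ∧ b = b') ∨ (a = b' ∧ b = a')
  | o a b, o a' b' => a = a' ∧ b = b'
  | _, _ => False

theorem G_inj {k k' : Kc S} (hk : k.good) (hk' : k'.good) (h : k.G = k'.G) : eqv k k' := by
  obtain ⟨h1, h2⟩ := s_eq hk hk' h
  cases k <;> cases k' <;> simp only [s1, s2, eqv] at h1 h2 ⊢
  case one.z => exact (Set.singleton_ne_empty _ h1)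
  case z.one => exact (Set.singleton_ne_empty _ h1.symm)
  case one.one => exact Set.singleton_injective h1
  case one.two => exact (Set.singleton_ne_empty _ h1)
  case two.one => exact (Set.singleton_ne_empty _ h1.symm)
  case z.two => exact (Set.singleton_ne_empty _ h2.symm)
  case two.z => exact (Set.singleton_ne_empty _ h2)
  case two.two => exact Set.singleton_injective h2
  case z.s => exact ((Set.insert_nonempty _ _).ne_empty h1.symm)
  case s.z => exact ((Set.insert_nonempty _ _).ne_empty h1)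
  case one.s => exact pair_ne hk' h1.symm
  case s.one => exact pair_ne hk h1
  case two.s => exact ((Set.insert_nonempty _ _).ne_empty h1.symm)
  case s.two => exact ((Set.insert_nonempty _ _).ne_empty h1)
  case s.s => exact Set.pair_eq_pair_iff.1 h1
  case z.o => exact (Set.singleton_ne_empty _ h1.symm)
  case o.z => exact (Set.singleton_ne_empty _ h1)
  case one.o => exact (Set.singleton_ne_empty _ h2.symm)
  case o.one => exact (Set.singleton_ne_empty _ h2)
  case two.o => exact (Set.singleton_ne_empty _ h1.symm)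
  case o.two => exact (Set.singleton_ne_empty _ h1)
  case s.o => exact (Set.singleton_ne_empty _ h2.symm)
  case o.s => exact (Set.singleton_ne_empty _ h2)
  case o.o => exact ⟨Set.singleton_injective h1, Set.singleton_injective h2⟩

end Kc

section

variable {S : Type*}

/-- the directions of the points of an edge at a vertex -/
def vec (k : Fin 3) (τ : Fin 5) : Fin 3 → ZMod 3 :=
  if τ = 0 then bv k
  else if τ = 1 then 2 • bv k
  else if τ = 2 then bv k + bv (k + 1)
  else if τ = 3 then bv k + 2 • bv (k + 1)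
  else bv k + bv (k + 1) + 2 • bv (k + 2)

theorem vec_ne : ∀ k τ, vec k τ ≠ 0 ∧ vec k τ ≠ 1 := by decide

theorem vec_inj : ∀ k τ k' τ', vec k τ = vec k' τ' → k = k' ∧ τ = τ' := by decide +kernel

/-- first numbers -/
def J1 (τ : Fin 5) : Fin 14 :=
  if τ = 0 then 3 else if τ = 1 then 4 else if τ = 2 then 11 else if τ = 3 then 12 else 13

/-- second numbers -/
def J2 (τ : Fin 5) : Fin 14 := if τ = 0 then 7 else 8

/-- the classes of the names that occur -/
inductive Cl (D : Set (S × S)) (c : S × S → Fin 3) : Nm S → Kc S → Prop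
  | B (d : Fin 3 → ZMod 3) : Cl D c (.B d) .z
  | P0 (u : S) : Cl D c (.P 0 u) (.one u)
  | P2 (u : S) : Cl D c (.P 2 u) (.one u)
  | P1 (u : S) : Cl D c (.P 1 u) (.two u)
  | P3 (u : S) : Cl D c (.P 3 u) (.two u)
  | F (e : S × S) (he : e ∈ D) (τ : Fin 5) : Cl D c (.E (J1 τ) e.1 e.2) (.one e.1)
  | G (e : S × S) (he : e ∈ D) (τ : Fin 5) (hτ : τ.val < 2) :
      Cl D c (.E (J2 τ) e.1 e.2) (.one e.2)
  | E0 (e : S × S) (he : e ∈ D) : Cl D c (.E 0 e.1 e.2) (.s e.1 e.2)
  | E5 (e : S × S) (he : e ∈ D) : Cl D c (.E 5 e.1 e.2) (.s e.1 e.2)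
  | E6 (e : S × S) (he : e ∈ D) : Cl D c (.E 6 e.1 e.2) (.s e.1 e.2)
  | E1 (e : S × S) (he : e ∈ D) : Cl D c (.E 1 e.1 e.2) (.o e.1 e.2)
  | E9 (e : S × S) (he : e ∈ D) : Cl D c (.E 9 e.1 e.2) (.o e.1 e.2)
  | E2 (e : S × S) (he : e ∈ D) : Cl D c (.E 2 e.1 e.2) (.o e.2 e.1)
  | E10 (e : S × S) (he : e ∈ D) : Cl D c (.E 10 e.1 e.2) (.o e.2 e.1)

/-- a name that occurs in the template of an edge -/
def Occ (u v : S) (x : Nm S) : Prop :=
  (∃ d, x = .B d) ∨ (∃ i, x = .P i u) ∨ (∃ i, x = .P i v) ∨ ∃ j, x = .E j u v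

theorem occ_lines (u v : S) : ∀ l ∈ lines u v, Occ u v l.1 ∧ Occ u v l.2.1 ∧ Occ u v l.2.2 := by
  intro l hl
  unfold lines at hl
  rw [List.mem_append] at hl
  rcases hl with hl | hl
  · simp only [blockLines, List.mem_flatMap, List.mem_map] at hl
    obtain ⟨i, -, a, -, b, -, rfl⟩ := hl
    exact ⟨Or.inl ⟨_, rfl⟩, Or.inl ⟨_, rfl⟩, Or.inl ⟨_, rfl⟩⟩
  simp only [List.mem_cons, List.not_mem_nil, or_false] at hl
  have hB : ∀ d, Occ u v (.B d) := fun d => Or.inl ⟨d, rfl⟩
  have hPu : ∀ i, Occ u v (.P i u) := fun i => Or.inr (Or.inl ⟨i, rfl⟩)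
  have hPv : ∀ i, Occ u v (.P i v) := fun i => Or.inr (Or.inr (Or.inl ⟨i, rfl⟩))
  have hE : ∀ j, Occ u v (.E j u v) := fun j => Or.inr (Or.inr (Or.inr ⟨j, rfl⟩))
  rcases hl with rfl | rfl | rfl | rfl | rfl | rfl | rfl | rfl | rfl | rfl | rfl | rfl
  · exact ⟨hB _, hPu _, hPu _⟩
  · exact ⟨hB _, hPv _, hPv _⟩
  · exact ⟨hB _, hPu _, hPu _⟩
  · exact ⟨hPu _, hE _, hE _⟩
  · exact ⟨hPv _, hE _, hE _⟩
  · exact ⟨hPu _, hE _, hE _⟩
  · exact ⟨hE _, hE _, hE _⟩
  · exact ⟨hPv _, hE _, hE _⟩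
  · exact ⟨hE _, hE _, hE _⟩
  · exact ⟨hE _, hE _, hE _⟩
  · exact ⟨hE _, hE _, hE _⟩
  · exact ⟨hE _, hPu _, hE _⟩

theorem tmpl_line {u v : S} {x y : Nm S} (h : (x, y) ∈ tmpl u v) :
    ∃ l ∈ lines u v, (x = l.1 ∧ y = l.2.1) ∨ (x = l.2.1 ∧ y = l.2.2) ∨
      (x = l.2.2 ∧ y = l.1) := by
  simpa [tmpl, triEdges, List.mem_flatMap] using h

theorem occ_of_adj {D : Set (S × S)} {x y : Nm S} (h : NAdj D x y) :
    ∃ e ∈ D, Occ e.1 e.2 x := by
  obtain ⟨e, he, h | h⟩ := h
  · obtain ⟨l, hl, h1⟩ := tmpl_line h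
    obtain ⟨o1, o2, o3⟩ := occ_lines _ _ l hl
    refine ⟨e, he, ?_⟩
    rcases h1 with h1 | h1 | h1 <;> rw [h1.1] <;> assumption
  · obtain ⟨l, hl, h1⟩ := tmpl_line h
    obtain ⟨o1, o2, o3⟩ := occ_lines _ _ l hl
    refine ⟨e, he, ?_⟩
    rcases h1 with h1 | h1 | h1 <;> rw [h1.2] <;> assumption

theorem cl_of_occ {D : Set (S × S)} (c : S × S → Fin 3) {e : S × S} (he : e ∈ D) {x : Nm S}
    (h : Occ e.1 e.2 x) : ∃ k, Cl D c x k := by
  rcases h with ⟨d, rfl⟩ | ⟨i, rfl⟩ | ⟨i, rfl⟩ | ⟨j, rfl⟩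
  · exact ⟨_, .B d⟩
  · fin_cases i
    · exact ⟨_, .P0 _⟩
    · exact ⟨_, .P1 _⟩
    · exact ⟨_, .P2 _⟩
    · exact ⟨_, .P3 _⟩
  · fin_cases i
    · exact ⟨_, .P0 _⟩
    · exact ⟨_, .P1 _⟩
    · exact ⟨_, .P2 _⟩
    · exact ⟨_, .P3 _⟩
  · fin_cases j
    · exact ⟨_, .E0 e he⟩
    · exact ⟨_, .E1 e he⟩
    · exact ⟨_, .E2 e he⟩
    · exact ⟨_, .F e he 0⟩
    · exact ⟨_, .F e he 1⟩
    · exact ⟨_, .E5 e he⟩
    · exact ⟨_, .E6 e he⟩
    · exact ⟨_, .G e he 0 (by decide)⟩
    · exact ⟨_, .G e he 1 (by decide)⟩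
    · exact ⟨_, .E9 e he⟩
    · exact ⟨_, .E10 e he⟩
    · exact ⟨_, .F e he 2⟩
    · exact ⟨_, .F e he 3⟩
    · exact ⟨_, .F e he 4⟩

theorem cl_gg {D : Set (S × S)} {c : S × S → Fin 3} {x : Nm S} {k : Kc S} (h : Cl D c x k) :
    gg x = k.G := by
  cases h with
  | B d => rfl
  | P0 u => simp [gg, Kc.G]
  | P2 u => simp [gg, Kc.G]
  | P1 u => simp [gg, Kc.G]
  | P3 u => simp [gg, Kc.G]
  | F e he τ => fin_cases τ <;> simp [gg, Kc.G, J1]
  | G e he τ hτ => fin_cases τ <;> simp [gg, Kc.G, J2]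
  | E0 e he => simp [gg, Kc.G]
  | E5 e he => simp [gg, Kc.G]
  | E6 e he => simp [gg, Kc.G]
  | E1 e he => simp [gg, Kc.G]
  | E9 e he => simp [gg, Kc.G]
  | E2 e he => simp [gg, Kc.G, add_comm]
  | E10 e he => simp [gg, Kc.G, add_comm]

theorem cl_good {D : Set (S × S)} (hD : ∀ e ∈ D, e.1 ≠ e.2 ∧ (e.2, e.1) ∉ D)
    {c : S × S → Fin 3} {x : Nm S} {k : Kc S} (h : Cl D c x k) : k.good := by
  cases h with
  | E0 e he => exact (hD e he).1
  | E5 e he => exact (hD e he).1
  | E6 e he => exact (hD e he).1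
  | E1 e he => exact (hD e he).1
  | E9 e he => exact (hD e he).1
  | E2 e he => exact (hD e he).1.symm
  | E10 e he => exact (hD e he).1.symm
  | _ => trivial

theorem dd_J1 (c : S × S → Fin 3) (e : S × S) (τ : Fin 5) :
    dd c (.E (J1 τ) e.1 e.2) = vec (c e) τ := by
  fin_cases τ <;> simp [dd, J1, vec]

theorem dd_J2 (c : S × S → Fin 3) (e : S × S) (τ : Fin 5) (hτ : τ.val < 2) :
    dd c (.E (J2 τ) e.1 e.2) = vec (c e) τ := by
  fin_cases τ <;> first | (exfalso; simp at hτ; done) | simp [dd, J2, vec]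

theorem bv_facts : ∀ k : Fin 3, (bv k : Fin 3 → ZMod 3) ≠ 0 ∧ (2 • bv k : Fin 3 → ZMod 3) ≠ 0 ∧
    (bv k : Fin 3 → ZMod 3) ≠ 2 • bv k := by decide

theorem main_inj {D : Set (S × S)} (hD : ∀ e ∈ D, e.1 ≠ e.2 ∧ (e.2, e.1) ∉ D)
    {c : S × S → Fin 3}
    (hc : ∀ e ∈ D, ∀ f ∈ D, e ≠ f →
      (e.1 = f.1 ∨ e.1 = f.2 ∨ e.2 = f.1 ∨ e.2 = f.2) → c e ≠ c f)
    {x x' : Nm S} {k k' : Kc S} (h : Cl D c x k) (h' : Cl D c x' k')
    (hd : dd c x = dd c x') (hg : gg x = gg x') : x = x' := by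
  rw [cl_gg h, cl_gg h'] at hg
  have hk := Kc.G_inj (cl_good hD h) (cl_good hD h') hg
  have hsame : ∀ e ∈ D, ∀ f ∈ D, (e.1 = f.1 ∨ e.1 = f.2 ∨ e.2 = f.1 ∨ e.2 = f.2) → c e = c f →
      e = f := fun e he f hf h1 h2 => by
    by_contra h3
    exact hc e he f hf h3 h1 h2
  have hswap : ∀ e ∈ D, ∀ f ∈ D, e.1 = f.2 → e.2 = f.1 → False := fun e he f hf h1 h2 => by
    apply (hD f hf).2
    rw [← h1, ← h2]
    exact he
  obtain ⟨b1, b2, b3⟩ : (∀ k : Fin 3, (bv k : Fin 3 → ZMod 3) ≠ 0) ∧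
      (∀ k : Fin 3, (2 • bv k : Fin 3 → ZMod 3) ≠ 0) ∧
      (∀ k : Fin 3, (bv k : Fin 3 → ZMod 3) ≠ 2 • bv k) :=
    ⟨fun k => (bv_facts k).1, fun k => (bv_facts k).2.1, fun k => (bv_facts k).2.2⟩
  have d0 : ∀ e : S × S, dd c (.E 0 e.1 e.2) = 0 := fun e => by simp [dd]
  have d1 : ∀ e : S × S, dd c (.E 1 e.1 e.2) = 0 := fun e => by simp [dd]
  have d2 : ∀ e : S × S, dd c (.E 2 e.1 e.2) = 0 := fun e => by simp [dd]
  have d5 : ∀ e : S × S, dd c (.E 5 e.1 e.2) = bv (c e) := fun e => by simp [dd]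
  have d6 : ∀ e : S × S, dd c (.E 6 e.1 e.2) = 2 • bv (c e) := fun e => by simp [dd]
  have d9 : ∀ e : S × S, dd c (.E 9 e.1 e.2) = bv (c e) := fun e => by simp [dd]
  have d10 : ∀ e : S × S, dd c (.E 10 e.1 e.2) = bv (c e) := fun e => by simp [dd]
  cases h with
  | B d =>
    cases h' with
    | B d' => simp only [dd] at hd; rw [hd]
    | _ => exact absurd hk (by simp [Kc.eqv])
  | P0 u =>
    cases h' with
    | P0 u' => simp only [Kc.eqv] at hk; rw [hk]
    | P2 u' => simp [dd] at hd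
    | F e he τ => rw [dd_J1] at hd; simp [dd] at hd; exact absurd hd.symm (vec_ne _ _).1
    | G e he τ hτ => rw [dd_J2 _ _ _ hτ] at hd; simp [dd] at hd; exact absurd hd.symm (vec_ne _ _).1
    | _ => exact absurd hk (by simp [Kc.eqv])
  | P2 u =>
    cases h' with
    | P0 u' => simp [dd] at hd
    | P2 u' => simp only [Kc.eqv] at hk; rw [hk]
    | F e he τ => rw [dd_J1] at hd; simp [dd] at hd; exact absurd hd.symm (vec_ne _ _).2
    | G e he τ hτ => rw [dd_J2 _ _ _ hτ] at hd; simp [dd] at hd; exact absurd hd.symm (vec_ne _ _).2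
    | _ => exact absurd hk (by simp [Kc.eqv])
  | P1 u =>
    cases h' with
    | P1 u' => simp only [Kc.eqv] at hk; rw [hk]
    | P3 u' => simp [dd] at hd
    | _ => exact absurd hk (by simp [Kc.eqv])
  | P3 u =>
    cases h' with
    | P1 u' => simp [dd] at hd
    | P3 u' => simp only [Kc.eqv] at hk; rw [hk]
    | _ => exact absurd hk (by simp [Kc.eqv])
  | F e he τ =>
    cases h' with
    | P0 u' => rw [dd_J1] at hd; simp [dd] at hd; exact absurd hd (vec_ne _ _).1
    | P2 u' => rw [dd_J1] at hd; simp [dd] at hd; exact absurd hd (vec_ne _ _).2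
    | F e' he' τ' =>
      rw [dd_J1, dd_J1] at hd
      obtain ⟨h1, h2⟩ := vec_inj _ _ _ _ hd
      simp only [Kc.eqv] at hk
      have h3 := hsame e he e' he' (Or.inl hk) h1
      rw [h2, h3]
    | G e' he' τ' hτ' =>
      rw [dd_J1, dd_J2 _ _ _ hτ'] at hd
      obtain ⟨h1, h2⟩ := vec_inj _ _ _ _ hd
      simp only [Kc.eqv] at hk
      have h3 := hsame e he e' he' (Or.inr (Or.inl hk)) h1
      subst h3
      exact absurd hk (hD e he).1
    | _ => exact absurd hk (by simp [Kc.eqv])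
  | G e he τ hτ =>
    cases h' with
    | P0 u' => rw [dd_J2 _ _ _ hτ] at hd; simp [dd] at hd; exact absurd hd (vec_ne _ _).1
    | P2 u' => rw [dd_J2 _ _ _ hτ] at hd; simp [dd] at hd; exact absurd hd (vec_ne _ _).2
    | F e' he' τ' =>
      rw [dd_J1, dd_J2 _ _ _ hτ] at hd
      obtain ⟨h1, h2⟩ := vec_inj _ _ _ _ hd
      simp only [Kc.eqv] at hk
      have h3 := hsame e he e' he' (Or.inr (Or.inr (Or.inl hk))) h1
      subst h3
      exact absurd hk.symm (hD e he).1
    | G e' he' τ' hτ' =>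
      rw [dd_J2 _ _ _ hτ, dd_J2 _ _ _ hτ'] at hd
      obtain ⟨h1, h2⟩ := vec_inj _ _ _ _ hd
      simp only [Kc.eqv] at hk
      have h3 := hsame e he e' he' (Or.inr (Or.inr (Or.inr hk))) h1
      rw [h2, h3]
    | _ => exact absurd hk (by simp [Kc.eqv])
  | E0 e he =>
    cases h' with
    | E0 e' he' =>
      simp only [Kc.eqv] at hk
      rcases hk with ⟨k1, k2⟩ | ⟨k1, k2⟩
      · have h3 : e = e' := Prod.ext k1 k2
        subst h3
        rfl
      · exact (hswap e he e' he' k1 k2).elim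
    | E5 e' he' =>
      simp only [Kc.eqv] at hk
      rcases hk with ⟨k1, k2⟩ | ⟨k1, k2⟩
      · have h3 : e = e' := Prod.ext k1 k2
        subst h3
        rw [d0, d5] at hd
        exact absurd hd.symm (b1 _)
      · exact (hswap e he e' he' k1 k2).elim
    | E6 e' he' =>
      simp only [Kc.eqv] at hk
      rcases hk with ⟨k1, k2⟩ | ⟨k1, k2⟩
      · have h3 : e = e' := Prod.ext k1 k2
        subst h3
        rw [d0, d6] at hd
        exact absurd hd.symm (b2 _)
      · exact (hswap e he e' he' k1 k2).elim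
    | _ => exact absurd hk (by simp [Kc.eqv])
  | E5 e he =>
    cases h' with
    | E0 e' he' =>
      simp only [Kc.eqv] at hk
      rcases hk with ⟨k1, k2⟩ | ⟨k1, k2⟩
      · have h3 : e = e' := Prod.ext k1 k2
        subst h3
        rw [d5, d0] at hd
        exact absurd hd (b1 _)
      · exact (hswap e he e' he' k1 k2).elim
    | E5 e' he' =>
      simp only [Kc.eqv] at hk
      rcases hk with ⟨k1, k2⟩ | ⟨k1, k2⟩
      · have h3 : e = e' := Prod.ext k1 k2
        subst h3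
        rfl
      · exact (hswap e he e' he' k1 k2).elim
    | E6 e' he' =>
      simp only [Kc.eqv] at hk
      rcases hk with ⟨k1, k2⟩ | ⟨k1, k2⟩
      · have h3 : e = e' := Prod.ext k1 k2
        subst h3
        rw [d5, d6] at hd
        exact absurd hd (b3 _)
      · exact (hswap e he e' he' k1 k2).elim
    | _ => exact absurd hk (by simp [Kc.eqv])
  | E6 e he =>
    cases h' with
    | E0 e' he' =>
      simp only [Kc.eqv] at hk
      rcases hk with ⟨k1, k2⟩ | ⟨k1, k2⟩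
      · have h3 : e = e' := Prod.ext k1 k2
        subst h3
        rw [d6, d0] at hd
        exact absurd hd (b2 _)
      · exact (hswap e he e' he' k1 k2).elim
    | E5 e' he' =>
      simp only [Kc.eqv] at hk
      rcases hk with ⟨k1, k2⟩ | ⟨k1, k2⟩
      · have h3 : e = e' := Prod.ext k1 k2
        subst h3
        rw [d6, d5] at hd
        exact absurd hd.symm (b3 _)
      · exact (hswap e he e' he' k1 k2).elim
    | E6 e' he' =>
      simp only [Kc.eqv] at hk
      rcases hk with ⟨k1, k2⟩ | ⟨k1, k2⟩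
      · have h3 : e = e' := Prod.ext k1 k2
        subst h3
        rfl
      · exact (hswap e he e' he' k1 k2).elim
    | _ => exact absurd hk (by simp [Kc.eqv])
  | E1 e he =>
    cases h' with
    | E1 e' he' =>
      simp only [Kc.eqv] at hk
      obtain ⟨k1, k2⟩ := hk
      have h3 : e = e' := Prod.ext k1 k2
      subst h3
      rfl
    | E9 e' he' =>
      simp only [Kc.eqv] at hk
      obtain ⟨k1, k2⟩ := hk
      have h3 : e = e' := Prod.ext k1 k2
      subst h3
      rw [d1, d9] at hd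
      exact absurd hd.symm (b1 _)
    | E2 e' he' =>
      simp only [Kc.eqv] at hk
      obtain ⟨k1, k2⟩ := hk
      exact (hswap e he e' he' k1 k2).elim
    | E10 e' he' =>
      simp only [Kc.eqv] at hk
      obtain ⟨k1, k2⟩ := hk
      exact (hswap e he e' he' k1 k2).elim
    | _ => exact absurd hk (by simp [Kc.eqv])
  | E9 e he =>
    cases h' with
    | E1 e' he' =>
      simp only [Kc.eqv] at hk
      obtain ⟨k1, k2⟩ := hk
      have h3 : e = e' := Prod.ext k1 k2
      subst h3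
      rw [d9, d1] at hd
      exact absurd hd (b1 _)
    | E9 e' he' =>
      simp only [Kc.eqv] at hk
      obtain ⟨k1, k2⟩ := hk
      have h3 : e = e' := Prod.ext k1 k2
      subst h3
      rfl
    | E2 e' he' =>
      simp only [Kc.eqv] at hk
      obtain ⟨k1, k2⟩ := hk
      exact (hswap e he e' he' k1 k2).elim
    | E10 e' he' =>
      simp only [Kc.eqv] at hk
      obtain ⟨k1, k2⟩ := hk
      exact (hswap e he e' he' k1 k2).elim
    | _ => exact absurd hk (by simp [Kc.eqv])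
  | E2 e he =>
    cases h' with
    | E2 e' he' =>
      simp only [Kc.eqv] at hk
      obtain ⟨k1, k2⟩ := hk
      have h3 : e = e' := Prod.ext k2 k1
      subst h3
      rfl
    | E10 e' he' =>
      simp only [Kc.eqv] at hk
      obtain ⟨k1, k2⟩ := hk
      have h3 : e = e' := Prod.ext k2 k1
      subst h3
      rw [d2, d10] at hd
      exact absurd hd.symm (b1 _)
    | E1 e' he' =>
      simp only [Kc.eqv] at hk
      obtain ⟨k1, k2⟩ := hk
      exact (hswap e he e' he' k2 k1).elim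
    | E9 e' he' =>
      simp only [Kc.eqv] at hk
      obtain ⟨k1, k2⟩ := hk
      exact (hswap e he e' he' k2 k1).elim
    | _ => exact absurd hk (by simp [Kc.eqv])
  | E10 e he =>
    cases h' with
    | E2 e' he' =>
      simp only [Kc.eqv] at hk
      obtain ⟨k1, k2⟩ := hk
      have h3 : e = e' := Prod.ext k2 k1
      subst h3
      rw [d10, d2] at hd
      exact absurd hd (b1 _)
    | E10 e' he' =>
      simp only [Kc.eqv] at hk
      obtain ⟨k1, k2⟩ := hk
      have h3 : e = e' := Prod.ext k2 k1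
      subst h3
      rfl
    | E1 e' he' =>
      simp only [Kc.eqv] at hk
      obtain ⟨k1, k2⟩ := hk
      exact (hswap e he e' he' k2 k1).elim
    | E9 e' he' =>
      simp only [Kc.eqv] at hk
      obtain ⟨k1, k2⟩ := hk
      exact (hswap e he e' he' k2 k1).elim
    | _ => exact absurd hk (by simp [Kc.eqv])

end

theorem emb_of_colour {S : Type*} (D : Set (S × S))
    (hD : ∀ e ∈ D, e.1 ≠ e.2 ∧ (e.2, e.1) ∉ D) (c : S × S → Fin 3)
    (hc : ∀ e ∈ D, ∀ f ∈ D, e ≠ f →
      (e.1 = f.1 ∨ e.1 = f.2 ∨ e.2 = f.1 ∨ e.2 = f.2) → c e ≠ c f) :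
    ∃ p : Nm S → (Fin 3 ⊕ S → ZMod 3),
      (∀ x y, NAdj D x y → ∃ i, p x i ≠ p y i ∧ ∀ j, j ≠ i → p x j = p y j) ∧
      (∀ x y x' y', NAdj D x y → NAdj D x' y' → p x = p x' → x = x') ∧
      ∀ x y, NAdj D x y → ∀ u, (∀ e ∈ D, e.1 ≠ u ∧ e.2 ≠ u) → p x (Sum.inr u) = 0 := by
  refine ⟨pos c, ?_, ?_, ?_⟩
  · have key : ∀ (u v : S) (x y : Nm S), (x, y) ∈ tmpl u v →
        ∃ i, pos c x i ≠ pos c y i ∧ ∀ j, j ≠ i → pos c x j = pos c y j := by
      intro u v x y h
      obtain ⟨l, hl, h1⟩ := tmpl_line h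
      obtain ⟨p1, p2, p3⟩ := pos_of_HL c l.1 l.2.1 l.2.2 (lines_HL c u v l hl)
      rcases h1 with ⟨rfl, rfl⟩ | ⟨rfl, rfl⟩ | ⟨rfl, rfl⟩
      · exact p1
      · exact p2
      · exact p3
    rintro x y ⟨e, he, h | h⟩
    · exact key _ _ _ _ h
    · obtain ⟨i, h1, h2⟩ := key _ _ _ _ h
      exact ⟨i, h1.symm, fun j hj => (h2 j hj).symm⟩
  · intro x y x' y' h h' hp
    obtain ⟨e, he, ho⟩ := occ_of_adj h
    obtain ⟨e', he', ho'⟩ := occ_of_adj h'
    obtain ⟨k, hk⟩ := cl_of_occ c he ho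
    obtain ⟨k', hk'⟩ := cl_of_occ c he' ho'
    apply main_inj hD hc hk hk'
    · funext i
      have := congrFun hp (Sum.inl i)
      simpa [pos] using this
    · funext w
      have := congrFun hp (Sum.inr w)
      simpa [pos] using this
  · intro x y h w hw
    obtain ⟨e, he, ho⟩ := occ_of_adj h
    obtain ⟨w1, w2⟩ := hw e he
    have e1 : w ≠ e.1 := w1.symm
    have e2 : w ≠ e.2 := w2.symm
    show gg x w = 0
    rcases ho with ⟨d, rfl⟩ | ⟨i, rfl⟩ | ⟨i, rfl⟩ | ⟨j, rfl⟩
    · rfl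
    · fin_cases i <;> simp [gg, gu_apply, e1]
    · fin_cases i <;> simp [gg, gu_apply, e2]
    · fin_cases j <;> simp [gg, gu_apply, e1, e2]

end Pool.Agent.AVD
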