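import Pool.Agent.AVD.Wd
import Pool.Agent.AVD.Emb

/-!
If the edges can be coloured, the graph of the reduction is unavoidable.
-/

set_option autoImplicit false

namespace Pool.Agent.AVD

open Pool.Agent.Helper81.Cayley Pool.Agent.Helper1.Cayley

universe u

/-- the edge of the graph given by a pair of the list -/
private def g2e (L : EList) (hL : IsSimple L) (e : Str × Str) (he : e ∈ L) :
    (graphOf L).edgeSet :=
  ⟨s(⟨e.1, e, he, Or.inl rfl⟩, ⟨e.2, e, he, Or.inr rfl⟩), by
    rw [SimpleGraph.mem_edgeSet, graphOf_adj hL]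
    exact Or.inl he⟩

private theorem g2e_inj (L : EList) (hL : IsSimple L) {e f : Str × Str} (he : e ∈ L) (hf : f ∈ L)
    (h : g2e L hL e he = g2e L hL f hf) : e = f := by
  have h1 := congrArg Subtype.val h
  simp only [g2e, Sym2.eq_iff, Subtype.mk.injEq] at h1
  rcases h1 with ⟨h2, h3⟩ | ⟨h2, h3⟩
  · exact Prod.ext h2 h3
  · exfalso
    have h4 := (hL f hf).2
    rw [← h2, ← h3] at h4
    exact h4 he

private theorem g2_colour (L : EList) (hL : IsSimple L)
    (h : (graphOf L).lineGraph.Colorable 3) :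
    ∃ c : Str × Str → Fin 3, ∀ e ∈ {e | e ∈ L}, ∀ f ∈ {e | e ∈ L}, e ≠ f →
      (e.1 = f.1 ∨ e.1 = f.2 ∨ e.2 = f.1 ∨ e.2 = f.2) → c e ≠ c f := by
  classical
  obtain ⟨C⟩ := h
  refine ⟨fun e => if he : e ∈ L then C (g2e L hL e he) else 0, ?_⟩
  intro e he f hf hne hcom
  change e ∈ L at he
  change f ∈ L at hf
  simp only [he, hf, dif_pos]
  refine C.valid ?_
  rw [SimpleGraph.lineGraph_adj_iff_exists]
  refine ⟨fun h0 => hne (g2e_inj L hL he hf h0), ?_⟩
  rcases hcom with h1 | h1 | h1 | h1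
  · exact ⟨⟨e.1, e, he, Or.inl rfl⟩, by simp [g2e], by simp [g2e, h1]⟩
  · exact ⟨⟨e.1, e, he, Or.inl rfl⟩, by simp [g2e], by simp [g2e, h1]⟩
  · exact ⟨⟨e.2, e, he, Or.inr rfl⟩, by simp [g2e], by simp [g2e, h1]⟩
  · exact ⟨⟨e.2, e, he, Or.inr rfl⟩, by simp [g2e], by simp [g2e, h1]⟩

private theorem g2_name (L : EList) (x : verts (red L)) :
    ∃ m n : Nm Str, (x : Str) = enc m ∧ NAdj {e | e ∈ L} m n := by
  obtain ⟨x, ⟨⟨s, t⟩, hst, hx⟩⟩ := x
  obtain ⟨e, he, q, hq, h1, h2⟩ := mem_red.1 hst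
  rcases hx with hx | hx
  · exact ⟨q.1, q.2, hx.trans h1, e, he, Or.inl hq⟩
  · exact ⟨q.2, q.1, hx.trans h2, e, he, Or.inr hq⟩

theorem unavoidable_of_colour (L : EList) (hL : IsSimple L)
    (h : (graphOf L).lineGraph.Colorable 3) : ¬ Avoidable.{u, 0} (graphOf (red L)) := by
  classical
  obtain ⟨c, hc⟩ := g2_colour L hL h
  obtain ⟨p, hp1, hp2, hp3⟩ := emb_of_colour {e | e ∈ L} hL c hc
  -- the words that occur
  set W : Finset Str := (L.map Prod.fst).toFinset ∪ (L.map Prod.snd).toFinset with hW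
  have hWmem : ∀ u : Str, u ∉ W → ∀ e ∈ {e | e ∈ L}, e.1 ≠ u ∧ e.2 ≠ u := by
    intro u hu e he
    rw [hW, Finset.mem_union, List.mem_toFinset, List.mem_toFinset, List.mem_map,
      List.mem_map] at hu
    push Not at hu
    exact ⟨hu.1 e he, hu.2 e he⟩
  let d := Fintype.card (Fin 3 ⊕ W)
  let eq : Fin d ≃ Fin 3 ⊕ W := (Fintype.equivFin _).symm
  let lift : Fin 3 ⊕ W → Fin 3 ⊕ Str := Sum.map id Subtype.val
  choose nm nm' hnm hadj using g2_name L
  let F : verts (red L) → (Fin d → ZMod 3) := fun x i => p (nm x) (lift (eq i))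
  -- coordinates outside the range of `lift`
  have hout : ∀ x y : Nm Str, NAdj {e | e ∈ L} x y → ∀ i : Fin 3 ⊕ Str,
      (∀ j, lift j ≠ i) → p x i = 0 := by
    intro x y hxy i hi
    rcases i with i | u
    · exact absurd rfl (hi (Sum.inl i))
    · refine hp3 x y hxy u (hWmem u fun hu => ?_)
      exact hi (Sum.inr ⟨u, hu⟩) rfl
  have hinj : Function.Injective F := by
    intro x y hxy
    have h1 : p (nm x) = p (nm y) := by
      funext i
      by_cases hi : ∃ j, lift j = i
      · obtain ⟨j, rfl⟩ := hi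
        have := congrFun hxy (eq.symm j)
        simpa [F] using this
      · push Not at hi
        rw [hout _ _ (hadj x) i hi, hout _ _ (hadj y) i hi]
    have h2 := hp2 _ _ _ _ (hadj x) (hadj y) h1
    exact Subtype.ext ((hnm x).trans (h2 ▸ (hnm y).symm))
  have hhom : ∀ x y, (graphOf (red L)).Adj x y → (ternaryHamming d).Adj (F x) (F y) := by
    intro x y hxy
    obtain ⟨m, n, hm, hn, hmn⟩ := (red_adj hL x y).1 hxy
    have e1 : nm x = m := enc_injective ((hnm x).symm.trans hm)
    have e2 : nm y = n := enc_injective ((hnm y).symm.trans hn)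
    obtain ⟨i, hi1, hi2⟩ := hp1 m n hmn
    have hi : ∃ j, lift j = i := by
      by_contra hcon
      push Not at hcon
      apply hi1
      rw [hout m n hmn i hcon, hout n m (NAdj_symm hmn) i hcon]
    obtain ⟨j, rfl⟩ := hi
    rw [ternaryHamming_adj]
    refine ⟨eq.symm j, ?_, ?_⟩
    · simpa [F, e1, e2] using hi1
    · intro k hk
      have h3 : lift (eq k) ≠ lift j := by
        intro h4
        have h5 : eq k = j := by
          have hl : Function.Injective lift :=
            Sum.map_injective.2 ⟨Function.injective_id, Subtype.val_injective⟩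
          exact hl h4
        apply hk
        rw [← h5, Equiv.symm_apply_apply]
      have := hi2 _ h3
      simpa [F, e1, e2] using this
  have hcont : (graphOf (red L)).IsContained (ternaryHamming d) :=
    ⟨⟨⟨F, fun {a b} hab => hhom a b hab⟩, hinj⟩⟩
  intro hA
  apply not_avoidable_hamming.{u} d
  intro G hG
  obtain ⟨H, h1, h2, h3⟩ := hA G
  exact ⟨H, h1, h2, fun h4 => h3 (hcont.trans h4)⟩

end Pool.Agent.AVD
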