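import Pool.Agent.AVD.Defs
import Pool.Agent.Helper64.MEE.Cmd

/-!
The reduction is computable in polynomial time.
-/

set_option autoImplicit false

namespace Pool.Agent.AVD

open Pool.Agent.Helper64.Stk

namespace Tm

/-- The alphabet. -/
abbrev Sy : Type := Option Bool

/-- Names of the stacks: input, output, reversed output, temporary stack, and the two words. -/
inductive Key : Type
  | I | O | R | T | W (b : Bool)
  deriving DecidableEq

instance : Fintype Key where
  elems := {.I, .O, .R, .T, .W true, .W false}
  complete a := by
    rcases a with _ | _ | _ | _ | (_ | _) <;> decide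

/-- Programs. -/
abbrev Prog := Cmd Key Sy

/-- The contents of all stacks, top first. -/
def st (i o r t : List Sy) (w : Bool → List Sy) : Key → List Sy
  | .I => i
  | .O => o
  | .R => r
  | .T => t
  | .W b => w b

section st

variable (i o r t l : List Sy) (w : Bool → List Sy)

theorem st_I : Function.update (st i o r t w) .I l = st l o r t w := by
  funext j; cases j <;> simp [st]

theorem st_O : Function.update (st i o r t w) .O l = st i l r t w := by
  funext j; cases j <;> simp [st]

theorem st_R : Function.update (st i o r t w) .R l = st i o l t w := by
  funext j; cases j <;> simp [st]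

theorem st_T : Function.update (st i o r t w) .T l = st i o r l w := by
  funext j; cases j <;> simp [st]

theorem st_W (b : Bool) : Function.update (st i o r t w) (.W b) l =
    st i o r t (Function.update w b l) := by
  funext j
  cases j with
  | W b' =>
    by_cases h : b' = b
    · subst h; simp [st]
    · have : Key.W b' ≠ Key.W b := fun h' => h (by injection h')
      simp [st, h, this]
  | _ => simp [st]

end st

/-- `Ru c s s' B`: the command takes `s` to `s'` in at most `B` steps. -/
def Ru (c : Prog) (s s' : Key → List Sy) (B : ℕ) : Prop := ∃ t, t ≤ B ∧ Runs c s s' t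

theorem Ru.mono {c : Prog} {s s' : Key → List Sy} {B B' : ℕ} (h : Ru c s s' B) (hB : B ≤ B') :
    Ru c s s' B' := by
  obtain ⟨t, ht, hr⟩ := h
  exact ⟨t, ht.trans hB, hr⟩

theorem Ru.skip (s : Key → List Sy) : Ru .skip s s 1 := ⟨1, le_rfl, .skip _⟩

theorem Ru.push (k : Key) (a : Sy) (s : Key → List Sy) :
    Ru (.push k a) s (Function.update s k (a :: s k)) 1 := ⟨1, le_rfl, .push k a _⟩

theorem Ru.seq {c d : Prog} {s s' s'' : Key → List Sy} {B B' : ℕ} (h : Ru c s s' B)
    (h' : Ru d s' s'' B') : Ru (.seq c d) s s'' (B + B') := by
  obtain ⟨t, ht, hr⟩ := h
  obtain ⟨t', ht', hr'⟩ := h'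
  exact ⟨t + t', by omega, .seq hr hr'⟩

theorem Ru.loop_nil {k : Key} {stop : Sy → Bool} {body : Sy → Prog} {s : Key → List Sy}
    (h : s k = []) : Ru (.loop k stop body) s s 1 := ⟨1, le_rfl, .loop_nil h⟩

theorem Ru.loop_stop {k : Key} {stop : Sy → Bool} {body : Sy → Prog} {s : Key → List Sy} {a : Sy}
    {l : List Sy} (h : s k = a :: l) (ha : stop a = true) :
    Ru (.loop k stop body) s (Function.update s k l) 1 := ⟨1, le_rfl, .loop_stop h ha⟩

theorem Ru.loop_step {k : Key} {stop : Sy → Bool} {body : Sy → Prog} {s s' s'' : Key → List Sy}
    {a : Sy} {l : List Sy} {B B' : ℕ} (h : s k = a :: l) (ha : stop a = false)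
    (h1 : Ru (body a) (Function.update s k l) s' B) (h2 : Ru (.loop k stop body) s' s'' B') :
    Ru (.loop k stop body) s s'' (1 + B + B') := by
  obtain ⟨t, ht, hr⟩ := h1
  obtain ⟨t', ht', hr'⟩ := h2
  exact ⟨1 + t + t', by omega, .loop_step h ha hr hr'⟩

/-- The test which never stops. -/
def never : Sy → Bool := fun _ => false

/-- Move a word to the temporary stack. -/
def moveW (b : Bool) : Prog := .loop (.W b) never (fun a => .push .T a)

theorem ru_moveW (b : Bool) (i o r : List Sy) (l : List Sy) :
    ∀ (t : List Sy) (w : Bool → List Sy), w b = l →
      Ru (moveW b) (st i o r t w) (st i o r (l.reverse ++ t) (Function.update w b []))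
        (2 * l.length + 1) := by
  induction l with
  | nil =>
    intro t w hw
    have e : Function.update w b [] = w := by rw [← hw, Function.update_eq_self]
    rw [e]
    exact Ru.loop_nil hw
  | cons a l ih =>
    intro t w hw
    have h1 := Ru.push .T a (Function.update (st i o r t w) (.W b) l)
    rw [st_W, st_T] at h1
    have h2 := ih (a :: t) (Function.update w b l) (by simp)
    rw [Function.update_idem] at h2
    have h3 := Ru.loop_step (k := .W b) (stop := never) (body := fun a => .push .T a)
      (s := st i o r t w) (a := a) (l := l) hw rfl (by rw [st_W]; exact h1) h2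
    have e : (a :: l).reverse ++ t = l.reverse ++ (a :: t) := by simp
    rw [e]
    exact h3.mono (by simp only [List.length_cons]; omega)

/-- Tokens: a constant symbol, a word, a word with every letter doubled. -/
inductive Tok : Type
  | c (a : Sy)
  | w (b : Bool)
  | d (b : Bool)

/-- The value of a token. -/
def Tok.val (X : Bool → List Sy) : Tok → List Sy
  | .c a => [a]
  | .w b => X b
  | .d b => (X b).flatMap fun a => [a, a]

/-- Back from the temporary stack, with output. -/
def back1 (b : Bool) : Prog := .loop .T never (fun a => .seq (.push .R a) (.push (.W b) a))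

/-- Back from the temporary stack, with doubled output. -/
def back2 (b : Bool) : Prog :=
  .loop .T never (fun a => .seq (.push .R a) (.seq (.push .R a) (.push (.W b) a)))

theorem ru_back1 (b : Bool) (i o : List Sy) (l : List Sy) :
    ∀ (r : List Sy) (w : Bool → List Sy),
      Ru (back1 b) (st i o r l w) (st i o (l.reverse ++ r) [] (Function.update w b (l.reverse ++ w b)))
        (3 * l.length + 1) := by
  induction l with
  | nil =>
    intro r w
    have e : Function.update w b ([].reverse ++ w b) = w := by simp
    rw [e]
    exact Ru.loop_nil rfl
  | cons a l ih =>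
    intro r w
    have h1 := (Ru.push .R a (Function.update (st i o r (a :: l) w) .T l))
    rw [st_T, st_R] at h1
    have h1' := Ru.push (.W b) a (st i o (a :: r) l w)
    rw [st_W] at h1'
    have h2 := ih (a :: r) (Function.update w b (a :: w b))
    rw [Function.update_idem] at h2
    have h3 := Ru.loop_step (k := .T) (stop := never)
      (body := fun a => .seq (.push .R a) (.push (.W b) a))
      (s := st i o r (a :: l) w) (a := a) (l := l) rfl rfl (by rw [st_T]; exact h1.seq h1') h2
    have e : (a :: l).reverse ++ r = l.reverse ++ (a :: r) := by simp
    have e' : (a :: l).reverse ++ w b = l.reverse ++ Function.update w b (a :: w b) b := by simp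
    rw [e, e']
    exact h3.mono (by simp only [List.length_cons]; omega)

theorem ru_back2 (b : Bool) (i o : List Sy) (l : List Sy) :
    ∀ (r : List Sy) (w : Bool → List Sy),
      Ru (back2 b) (st i o r l w) (st i o ((l.flatMap fun a => [a, a]).reverse ++ r) []
        (Function.update w b (l.reverse ++ w b))) (4 * l.length + 1) := by
  induction l with
  | nil =>
    intro r w
    have e : Function.update w b ([].reverse ++ w b) = w := by simp
    rw [e]
    exact Ru.loop_nil rfl
  | cons a l ih =>
    intro r w
    have h1 := (Ru.push .R a (Function.update (st i o r (a :: l) w) .T l))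
    rw [st_T, st_R] at h1
    have h0 := Ru.push .R a (st i o (a :: r) l w)
    rw [st_R] at h0
    have h1' := Ru.push (.W b) a (st i o (a :: a :: r) l w)
    rw [st_W] at h1'
    have h2 := ih (a :: a :: r) (Function.update w b (a :: w b))
    rw [Function.update_idem] at h2
    have h3 := Ru.loop_step (k := .T) (stop := never)
      (body := fun a => .seq (.push .R a) (.seq (.push .R a) (.push (.W b) a)))
      (s := st i o r (a :: l) w) (a := a) (l := l) rfl rfl
      (by rw [st_T]; exact h1.seq (h0.seq h1')) h2
    have e : ((a :: l).flatMap fun a => [a, a]).reverse ++ r =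
        (l.flatMap fun a => [a, a]).reverse ++ (a :: a :: r) := by simp
    have e' : (a :: l).reverse ++ w b = l.reverse ++ Function.update w b (a :: w b) b := by simp
    rw [e, e']
    exact h3.mono (by simp only [List.length_cons]; omega)

/-- The program of a token. -/
def Tok.prog : Tok → Prog
  | .c a => .push .R a
  | .w b => .seq (moveW b) (back1 b)
  | .d b => .seq (moveW b) (back2 b)

/-- The state while a template is written. -/
def sx (i r : List Sy) (X : Bool → List Sy) : Key → List Sy :=
  st i [] r [] (fun b => (X b).reverse)

theorem ru_tok (t : Tok) (i r : List Sy) (X : Bool → List Sy) :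
    Ru t.prog (sx i r X) (sx i ((t.val X).reverse ++ r) X)
      (6 * ((X false).length + (X true).length) + 2) := by
  cases t with
  | c a =>
    have h := Ru.push .R a (sx i r X)
    unfold sx at h
    rw [st_R] at h
    exact h.mono (by omega)
  | w b =>
    have h1 := ru_moveW b i [] r (X b).reverse [] (fun b => (X b).reverse) rfl
    rw [List.reverse_reverse, List.append_nil] at h1
    have h2 := ru_back1 b i [] (X b) r (Function.update (fun b => (X b).reverse) b [])
    rw [Function.update_idem, Function.update_self, List.append_nil] at h2
    have e : Function.update (fun b => (X b).reverse) b (X b).reverse = fun b => (X b).reverse :=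
      Function.update_eq_self _ _
    rw [e] at h2
    refine (h1.seq h2).mono ?_
    have : (X b).length ≤ (X false).length + (X true).length := by cases b <;> omega
    rw [List.length_reverse]
    omega
  | d b =>
    have h1 := ru_moveW b i [] r (X b).reverse [] (fun b => (X b).reverse) rfl
    rw [List.reverse_reverse, List.append_nil] at h1
    have h2 := ru_back2 b i [] (X b) r (Function.update (fun b => (X b).reverse) b [])
    rw [Function.update_idem, Function.update_self, List.append_nil] at h2
    have e : Function.update (fun b => (X b).reverse) b (X b).reverse = fun b => (X b).reverse :=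
      Function.update_eq_self _ _
    rw [e] at h2
    refine (h1.seq h2).mono ?_
    have : (X b).length ≤ (X false).length + (X true).length := by cases b <;> omega
    rw [List.length_reverse]
    omega

/-- The program of a template. -/
def prog (l : List Tok) : Prog := l.foldr (fun t c => .seq t.prog c) .skip

theorem ru_prog (l : List Tok) (i : List Sy) (X : Bool → List Sy) : ∀ r : List Sy,
    Ru (prog l) (sx i r X) (sx i ((l.flatMap (Tok.val X)).reverse ++ r) X)
      (l.length * (6 * ((X false).length + (X true).length) + 2) + 1) := by
  induction l with
  | nil => intro r; exact (Ru.skip _).mono (by simp)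
  | cons t l ih =>
    intro r
    have h := (ru_tok t i r X).seq (ih ((t.val X).reverse ++ r))
    have e : (((t :: l).flatMap (Tok.val X)).reverse ++ r) =
        (l.flatMap (Tok.val X)).reverse ++ ((t.val X).reverse ++ r) := by simp
    rw [e]
    refine h.mono ?_
    rw [List.length_cons]
    generalize 6 * ((X false).length + (X true).length) + 2 = k
    have : (l.length + 1) * k = l.length * k + k := by ring
    omega

/-- Read a word. -/
def readW (b : Bool) : Prog := .loop .I Option.isNone (fun a => .push (.W b) a)

theorem ru_readW (b : Bool) (i o r t : List Sy) (x : List Bool) : ∀ w : Bool → List Sy,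
    Ru (readW b) (st (x.map some ++ none :: i) o r t w)
      (st i o r t (Function.update w b ((x.map some).reverse ++ w b))) (2 * x.length + 1) := by
  induction x with
  | nil =>
    intro w
    have h := Ru.loop_stop (k := .I) (stop := Option.isNone) (body := fun a => .push (.W b) a)
      (s := st (none :: i) o r t w) (a := none) (l := i) rfl rfl
    rw [st_I] at h
    have e : Function.update w b ((List.map some []).reverse ++ w b) = w := by simp
    rw [e]
    exact h
  | cons a x ih =>
    intro w
    have h1 := Ru.push (.W b) (some a) (Function.update (st ((a :: x).map some ++ none :: i) o r t w)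
      .I (x.map some ++ none :: i))
    rw [st_I, st_W] at h1
    have h2 := ih (Function.update w b (some a :: w b))
    rw [Function.update_idem] at h2
    have h3 := Ru.loop_step (k := .I) (stop := Option.isNone) (body := fun a => .push (.W b) a)
      (s := st ((a :: x).map some ++ none :: i) o r t w) (a := some a)
      (l := x.map some ++ none :: i) rfl rfl (by rw [st_I]; exact h1) h2
    have e' : ((a :: x).map some).reverse ++ w b =
        (x.map some).reverse ++ Function.update w b (some a :: w b) b := by simp
    rw [e']
    exact h3.mono (by simp only [List.length_cons]; omega)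

/-- Empty a word stack. -/
def clearW (b : Bool) : Prog := .loop (.W b) never (fun _ => .skip)

theorem ru_clearW (b : Bool) (i o r t : List Sy) (l : List Sy) : ∀ w : Bool → List Sy, w b = l →
    Ru (clearW b) (st i o r t w) (st i o r t (Function.update w b [])) (2 * l.length + 1) := by
  induction l with
  | nil =>
    intro w hw
    have e : Function.update w b [] = w := by rw [← hw, Function.update_eq_self]
    rw [e]
    exact Ru.loop_nil hw
  | cons a l ih =>
    intro w hw
    have h2 := ih (Function.update w b l) (by simp)
    rw [Function.update_idem] at h2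
    have h3 := Ru.loop_step (k := .W b) (stop := never) (body := fun _ => .skip)
      (s := st i o r t w) (a := a) (l := l) hw rfl (Ru.skip _) (by rw [st_W]; exact h2)
    exact h3.mono (by simp only [List.length_cons]; omega)

/-- Work on one edge. -/
def body (l : List Tok) (a : Sy) : Prog :=
  .seq (.push .I a) (.seq (readW false) (.seq (readW true) (.seq (prog l)
    (.seq (clearW false) (clearW true)))))

/-- The two words. -/
def wd (e : Str × Str) (b : Bool) : List Sy := if b then e.2.map some else e.1.map some

/-- The code of an edge. -/
def encE (e : Str × Str) : List Sy := e.1.map some ++ none :: (e.2.map some ++ [none])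

/-- The output. -/
def out (l : List Tok) (L : EList) : List Sy := L.flatMap fun e => l.flatMap (Tok.val (wd e))

/-- The number of steps for one symbol. -/
def cst (l : List Tok) : ℕ := 6 * l.length + 10

theorem ru_edge (l : List Tok) (e : Str × Str) (a : Sy) (i i' r : List Sy)
    (h : encE e ++ i = a :: i') :
    Ru (body l a) (st i' [] r [] (fun _ => []))
      (st i [] ((l.flatMap (Tok.val (wd e))).reverse ++ r) [] (fun _ => []))
      (cst l * (encE e).length - 1) := by
  have h1 := Ru.push .I a (st i' [] r [] (fun _ => []))
  rw [st_I] at h1
  have e0 : a :: st i' [] r [] (fun _ => []) .I = e.1.map some ++ none :: (e.2.map some ++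
      none :: i) := by
    change a :: i' = _
    rw [← h]
    simp [encE]
  rw [e0] at h1
  have h2 := ru_readW false (e.2.map some ++ none :: i) [] r [] e.1 (fun _ => [])
  have h3 := ru_readW true i [] r [] e.2
    (Function.update (fun _ => []) false ((e.1.map some).reverse ++ []))
  have e1 : Function.update (Function.update (fun _ => ([] : List Sy)) false
      ((e.1.map some).reverse ++ [])) true ((e.2.map some).reverse ++
        Function.update (fun _ => ([] : List Sy)) false ((e.1.map some).reverse ++ []) true) =
      fun b => (wd e b).reverse := by
    funext b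
    cases b <;> simp [wd]
  rw [e1] at h3
  have h4 := ru_prog l i (wd e) r
  unfold sx at h4
  have h5 := ru_clearW false i [] ((l.flatMap (Tok.val (wd e))).reverse ++ r) []
    (wd e false).reverse (fun b => (wd e b).reverse) rfl
  have h6 := ru_clearW true i [] ((l.flatMap (Tok.val (wd e))).reverse ++ r) []
    (wd e true).reverse (Function.update (fun b => (wd e b).reverse) false []) (by simp)
  have e2 : Function.update (Function.update (fun b => (wd e b).reverse) false []) true [] =
      fun _ => [] := by
    funext b
    cases b <;> simp
  rw [e2] at h6
  refine (h1.seq (h2.seq (h3.seq (h4.seq (h5.seq h6))))).mono ?_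
  have e3 : (wd e false).length = e.1.length := by simp [wd]
  have e4 : (wd e true).length = e.2.length := by simp [wd]
  have e5 : (encE e).length = e.1.length + e.2.length + 2 := by
    simp only [encE, List.length_append, List.length_cons, List.length_map, List.length_nil]
    omega
  rw [List.length_reverse, List.length_reverse, e3, e4, e5, cst]
  generalize e.1.length = x
  generalize e.2.length = y
  generalize l.length = n
  have h7 : (6 * n + 10) * (x + y + 2) =
      n * (6 * (x + y) + 2) + 10 * n + 10 * (x + y) + 20 := by ring
  rw [h7]
  omega

theorem ru_main (l : List Tok) (L : EList) : ∀ r : List Sy,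
    Ru (.loop .I never (body l)) (st (encL L) [] r [] (fun _ => []))
      (st [] [] ((out l L).reverse ++ r) [] (fun _ => [])) (cst l * (encL L).length + 1) := by
  induction L with
  | nil => intro r; exact (Ru.loop_nil rfl).mono (by omega)
  | cons e L ih =>
    intro r
    have h0 : encL (e :: L) = encE e ++ encL L := by simp [encL, encE]
    have h0' : encE e ≠ [] := by simp [encE]
    obtain ⟨a, l', hl'⟩ := List.exists_cons_of_ne_nil h0'
    have h1 : encE e ++ encL L = a :: (l' ++ encL L) := by rw [hl']; rfl
    have h2 := ru_edge l e a (encL L) (l' ++ encL L) r h1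
    have h3 := ih ((l.flatMap (Tok.val (wd e))).reverse ++ r)
    have h4 := Ru.loop_step (k := .I) (stop := never) (body := body l)
      (s := st (encL (e :: L)) [] r [] (fun _ => [])) (a := a) (l := l' ++ encL L)
      (h0.trans h1) rfl (by rw [st_I]; exact h2) h3
    have e1 : (out l (e :: L)).reverse ++ r =
        (out l L).reverse ++ ((l.flatMap (Tok.val (wd e))).reverse ++ r) := by simp [out]
    rw [e1]
    refine h4.mono ?_
    have h5 : 0 < cst l * (encE e).length :=
      Nat.mul_pos (by unfold cst; omega) (by rw [hl']; simp)
    rw [h0, List.length_append, Nat.mul_add]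
    omega

/-- Reverse the output. -/
def moveR : Prog := .loop .R never (fun a => .push .O a)

theorem ru_moveR (i t : List Sy) (w : Bool → List Sy) (l : List Sy) : ∀ o : List Sy,
    Ru moveR (st i o l t w) (st i (l.reverse ++ o) [] t w) (2 * l.length + 1) := by
  induction l with
  | nil => intro o; exact Ru.loop_nil rfl
  | cons a l ih =>
    intro o
    have h1 := Ru.push .O a (st i o l t w)
    rw [st_O] at h1
    have h3 := Ru.loop_step (k := .R) (stop := never) (body := fun a => .push .O a)
      (s := st i o (a :: l) t w) (a := a) (l := l) rfl rfl (by rw [st_R]; exact h1) (ih (a :: o))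
    have e : (a :: l).reverse ++ o = l.reverse ++ (a :: o) := by simp
    rw [e]
    exact h3.mono (by simp only [List.length_cons]; omega)

theorem only_I (l : List Sy) : only Key.I l = st l [] [] [] (fun _ => []) := by
  funext j; cases j <;> simp [only, st]

theorem only_O (l : List Sy) : only Key.O l = st [] l [] [] (fun _ => []) := by
  funext j; cases j <;> simp [only, st]

/-- Replacing every edge by a template is computable in polynomial time. -/
theorem tmpl_poly (l : List Tok) (f : EList → EList) (hf : ∀ L, encL (f L) = out l L) :
    Nonempty (Turing.TM2ComputableInPolyTime encL encL f) := by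
  refine ⟨computable_of_runs encL encL f Key.I Key.O (.seq (.loop .I never (body l)) moveR)
    (Polynomial.C (3 * cst l) * Polynomial.X + Polynomial.C 4) ?_⟩
  intro L
  obtain ⟨t, ht, hr⟩ := ru_main l L []
  have h1 : (out l L).length ≤ t := by
    have := hr.length_le Key.R
    simpa [st] using this
  obtain ⟨t', ht', hr'⟩ := ru_moveR [] [] (fun _ => []) ((out l L).reverse ++ []) []
  refine ⟨t + t', ?_, ?_⟩
  · simp only [Polynomial.eval_add, Polynomial.eval_mul, Polynomial.eval_C, Polynomial.eval_X]
    rw [List.append_nil, List.length_reverse] at ht'
    have : 3 * cst l * (encL L).length = 3 * (cst l * (encL L).length) := by ring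
    rw [this]
    omega
  · rw [only_I, only_O, hf L]
    have := Runs.seq hr hr'
    simpa using this

/-! ### The template as a list of tokens -/

/-- Renaming. -/
def nmap {S S' : Type*} (f : S → S') : Nm S → Nm S'
  | .B d => .B d
  | .P i u => .P i (f u)
  | .E j u v => .E j (f u) (f v)

/-- The tokens of a name. -/
def etok : Nm Bool → List Tok
  | .B d => List.replicate (bIdx d) (.c (some true)) ++ [.c (some false)]
  | .P i u => List.replicate (27 + i.val) (.c (some true)) ++ .c (some false) :: [.w u]
  | .E j u v => List.replicate (31 + j.val) (.c (some true)) ++ .c (some false) ::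
      [.d u, .c (some true), .c (some false), .w v]

/-- The words of an edge. -/
def ws (e : Str × Str) (b : Bool) : Str := if b then e.2 else e.1

theorem wd_eq (e : Str × Str) (b : Bool) : wd e b = (ws e b).map some := by
  cases b <;> simp [wd, ws]

theorem flatMap_replicate_c (X : Bool → List Sy) (n : ℕ) (a : Sy) :
    (List.replicate n (Tok.c a)).flatMap (Tok.val X) = List.replicate n a := by
  induction n with
  | zero => rfl
  | succ n ih => rw [List.replicate_succ, List.flatMap_cons, ih]; rfl

theorem val_etok (e : Str × Str) (m : Nm Bool) :
    (etok m).flatMap (Tok.val (wd e)) = (enc (nmap (ws e) m)).map some := by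
  cases m with
  | B d =>
    simp [etok, enc, nmap, flatMap_replicate_c, Tok.val]
  | P i u =>
    simp [etok, enc, nmap, flatMap_replicate_c, Tok.val, wd_eq]
  | E j u v =>
    simp [etok, enc, nmap, flatMap_replicate_c, Tok.val, wd_eq, dbl, List.map_flatMap,
      List.flatMap_map]

theorem blockLines_map {S S' : Type*} (f : S → S') : blockLines S' =
    (blockLines S).map (fun q => (nmap f q.1, nmap f q.2.1, nmap f q.2.2)) := by
  unfold blockLines
  rw [List.map_flatMap]
  congr 1

theorem lines_map (e : Str × Str) : lines e.1 e.2 =
    (lines false true).map (fun q => (nmap (ws e) q.1, nmap (ws e) q.2.1, nmap (ws e) q.2.2)) := by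
  unfold lines
  rw [List.map_append, ← blockLines_map (ws e)]
  rfl

theorem tmpl_map (e : Str × Str) : tmpl e.1 e.2 =
    (tmpl false true).map (fun q => (nmap (ws e) q.1, nmap (ws e) q.2)) := by
  rw [tmpl, lines_map, tmpl, List.flatMap_map, List.map_flatMap]
  rfl

/-- The code of a pair of words. -/
def encP (e : Str × Str) : List Sy := e.1.map some ++ none :: (e.2.map some ++ [none])

/-- The tokens of a list of pairs of names. -/
def toksOf (T : List (Nm Bool × Nm Bool)) : List Tok := T.flatMap fun q =>
  etok q.1 ++ .c none :: (etok q.2 ++ [.c none])

theorem toksOf_val (T : List (Nm Bool × Nm Bool)) (e : Str × Str) :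
    (((T.map (fun q => (nmap (ws e) q.1, nmap (ws e) q.2))).map
      fun q => (enc q.1, enc q.2)).flatMap encP) = (toksOf T).flatMap (Tok.val (wd e)) := by
  induction T with
  | nil => rfl
  | cons q T ih =>
    rw [List.map_cons, List.map_cons, List.flatMap_cons, ih]
    have h : toksOf (q :: T) = (etok q.1 ++ .c none :: (etok q.2 ++ [.c none])) ++ toksOf T := rfl
    rw [h, List.flatMap_append]
    congr 1
    simp [val_etok, Tok.val, encP]

theorem out_toks (T : List (Nm Bool × Nm Bool))
    (hT : ∀ e : Str × Str, tmpl e.1 e.2 = T.map (fun q => (nmap (ws e) q.1, nmap (ws e) q.2)))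
    (L : EList) : encL (red L) = out (toksOf T) L := by
  induction L with
  | nil => rfl
  | cons e L ih =>
    have h1 : encL (red (e :: L)) =
        (((tmpl e.1 e.2).map fun q => (enc q.1, enc q.2)).flatMap encP) ++ encL (red L) := by
      unfold red
      rw [List.flatMap_cons]
      unfold encL
      rw [List.flatMap_append]
      rfl
    have h2 : out (toksOf T) (e :: L) =
        (toksOf T).flatMap (Tok.val (wd e)) ++ out (toksOf T) L := by
      unfold out
      rw [List.flatMap_cons]
    rw [h1, h2, ih, hT, toksOf_val]

end Tm

theorem red_poly : Nonempty (Turing.TM2ComputableInPolyTime encL encL red) :=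
  Tm.tmpl_poly (Tm.toksOf (tmpl false true)) red (Tm.out_toks _ Tm.tmpl_map)

end Pool.Agent.AVD
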