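import Pool.Agent.AVD.Gl1
import Pool.Agent.AVD.Gl2
import Pool.Agent.AVD.Tm

/-!
The reduction.
-/

set_option autoImplicit false

namespace Pool.Agent.AVD

open Pool.Agent.Helper81.Cayley

universe u

theorem main : Function.Injective encL ∧ ∃ F : EList → EList,
    Nonempty (Turing.TM2ComputableInPolyTime encL encL F) ∧
    ∀ L : EList, IsSimple L → IsSimple (F L) ∧
      (¬ Avoidable.{u, 0} (graphOf (F L)) ↔ (graphOf L).lineGraph.Colorable 3) :=
  ⟨encL_injective, red, red_poly, fun L hL => ⟨red_simple L hL,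
    colour_of_unavoidable L hL, unavoidable_of_colour L hL⟩⟩

end Pool.Agent.AVD
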