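import Pool.Agent.AVD.Defs

/-!
A generating set without triangles of the subgroup generated by the elements of order different from 1 and 3.
-/

set_option autoImplicit false

namespace Pool.Agent.AVD

namespace Ga

variable {G : Type*} [Group G]

/-- the elements whose cube is not one -/
def T (G : Type*) [Group G] : Set G := {x | x ^ 3 ≠ 1}

/-- the elements of `T` which are not generated by smaller ones -/
def H (G : Type*) [Group G] : Set G :=
  {t | t ∈ T G ∧ t ∉ Subgroup.closure {t' | t' ∈ T G ∧ WellOrderingRel t' t}}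

/-- `p` is the parent of `g` -/
def Par (p g : G) : Prop :=
  p ∈ H G ∧ g ∈ H G ∧ WellOrderingRel p g ∧ (g ^ 2 = p ∨ g ^ 2 = p⁻¹)

theorem closure_H : Subgroup.closure (H G) = Subgroup.closure (T G) := by
  apply le_antisymm
  · exact Subgroup.closure_mono fun x hx => hx.1
  · rw [Subgroup.closure_le]
    intro t
    induction t using WellOrderingRel.isWellOrder.toIsWellFounded.wf.induction with
    | _ t ih =>
      intro ht
      by_cases h : t ∈ H G
      · exact Subgroup.subset_closure h
      · have h2 : t ∈ Subgroup.closure {t' | t' ∈ T G ∧ WellOrderingRel t' t} := by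
          by_contra h3
          exact h ⟨ht, h3⟩
        have h3 : Subgroup.closure {t' | t' ∈ T G ∧ WellOrderingRel t' t} ≤
            Subgroup.closure (H G) := by
          rw [Subgroup.closure_le]
          rintro t' ⟨h4, h5⟩
          exact ih t' h5 h4
        exact h3 h2

omit [Group G] in
theorem tri {x y : G} (h : x ≠ y) : WellOrderingRel x y ∨ WellOrderingRel y x := by
  rcases (trichotomous_of WellOrderingRel x y) with h1 | h1 | h1
  · exact Or.inl h1
  · exact absurd h1 h
  · exact Or.inr h1

theorem ne_one {x : G} (h : x ∈ H G) : x ≠ 1 := by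
  rintro rfl
  exact h.1 (one_pow 3)

/-- an element of `H` is not generated by two smaller ones -/
theorem not_two {x y z : G} (hx : x ∈ H G) (hy : y ∈ H G) (hz : z ∈ H G)
    (h1 : WellOrderingRel x z) (h2 : WellOrderingRel y z)
    (h : z ∈ Subgroup.closure {x, y}) : False := by
  have h3 : Subgroup.closure {x, y} ≤
      Subgroup.closure {t' | t' ∈ T G ∧ WellOrderingRel t' z} := by
    rw [Subgroup.closure_le]
    rintro t (rfl | rfl)
    · exact Subgroup.subset_closure ⟨hx.1, h1⟩
    · exact Subgroup.subset_closure ⟨hy.1, h2⟩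
  exact hz.2 (h3 h)

theorem mem_pm {x a : G} {S : Subgroup G} (hx : x ∈ S) (h : a = x ∨ a = x⁻¹) : a ∈ S := by
  rcases h with rfl | rfl
  · exact hx
  · exact S.inv_mem hx

theorem mem_pm' {x a : G} {S : Subgroup G} (ha : a ∈ S) (h : a = x ∨ a = x⁻¹) : x ∈ S := by
  rcases h with rfl | rfl
  · exact ha
  · simpa using ha

theorem par_unique {p p' g : G} (h : Par p g) (h' : Par p' g) : p = p' := by
  obtain ⟨h1, h2, h3, h4⟩ := h
  obtain ⟨h1', -, h3', h4'⟩ := h'
  by_contra hne
  have hinv : p' = p⁻¹ := by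
    rcases h4 with h4 | h4 <;> rcases h4' with h4' | h4'
    · exact absurd (h4.symm.trans h4') hne
    · rw [h4] at h4'; rw [h4', inv_inv]
    · rw [h4] at h4'; exact h4'.symm
    · rw [h4] at h4'; exact absurd (inv_injective h4') hne
  rcases tri hne with h | h
  · refine not_two h1 h1 h1' h h ?_
    rw [hinv]
    exact Subgroup.inv_mem _ (Subgroup.subset_closure (by simp))
  · refine not_two h1' h1' h1 h h ?_
    have : p = p'⁻¹ := by rw [hinv, inv_inv]
    rw [this]
    exact Subgroup.inv_mem _ (Subgroup.subset_closure (by simp))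

/-- two of the underlying elements are the largest one -/
theorem par_aux {y z a b c : G} (hy : y ∈ H G) (hz : z ∈ H G)
    (hb : b = y ∨ b = y⁻¹) (ha : a = z ∨ a = z⁻¹) (hc : c = z ∨ c = z⁻¹)
    (hr : WellOrderingRel y z) (h : c * a * b = 1) : Par y z := by
  have hy1 := ne_one hy
  have e : c * a = b⁻¹ := eq_inv_of_mul_eq_one_left h
  refine ⟨hy, hz, hr, ?_⟩
  have key : ∀ w : G, (w = z ∨ w = z⁻¹) → c = w → a = w → z ^ 2 = y ∨ z ^ 2 = y⁻¹ := by
    intro w hw h1 h2
    rw [h1, h2, ← pow_two] at e
    rcases hw with rfl | rfl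
    · rw [e]; rcases hb with rfl | rfl
      · exact Or.inr rfl
      · left; simp
    · have e2 : z ^ 2 = b := by
        have := congrArg (·⁻¹) e
        simpa using this
      rw [e2]; exact hb
  rcases ha with ha | ha <;> rcases hc with hc | hc
  · exact key z (Or.inl rfl) hc ha
  · exfalso
    rw [ha, hc, inv_mul_cancel] at e
    have hb1 : b = 1 := by simpa using e.symm
    rcases hb with hb | hb
    · exact hy1 (hb ▸ hb1)
    · rw [hb1] at hb
      exact hy1 (by simpa using hb.symm)
  · exfalso
    rw [ha, hc, mul_inv_cancel] at e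
    have hb1 : b = 1 := by simpa using e.symm
    rcases hb with hb | hb
    · exact hy1 (hb ▸ hb1)
    · rw [hb1] at hb
      exact hy1 (by simpa using hb.symm)
  · exact key z⁻¹ (Or.inr rfl) hc ha

theorem no_cube {z a b c : G} (hz : z ∈ H G) (ha : a = z ∨ a = z⁻¹) (hb : b = z ∨ b = z⁻¹)
    (hc : c = z ∨ c = z⁻¹) (h : a * b * c = 1) : False := by
  have h1 := ne_one hz
  have h3 : z ^ 3 ≠ 1 := hz.1
  rcases ha with rfl | rfl <;> rcases hb with rfl | rfl <;> rcases hc with rfl | rfl
  · exact h3 (by rw [pow_succ, pow_two]; exact h)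
  · exact h1 (by simpa using h)
  · exact h1 (by simpa using h)
  · exact h1 (by simpa using h)
  · exact h1 (by simpa using h)
  · exact h1 (by simpa using h)
  · exact h1 (by simpa using h)
  · apply h3
    have := congrArg (·⁻¹) h
    simp only [mul_inv_rev, inv_inv, inv_one] at this
    rw [pow_succ, pow_two, mul_assoc]; exact this

/-- the third element is (weakly) the largest -/
theorem par_max {x y z a b c : G} (hx : x ∈ H G) (hy : y ∈ H G) (hz : z ∈ H G)
    (ha : a = x ∨ a = x⁻¹) (hb : b = y ∨ b = y⁻¹) (hc : c = z ∨ c = z⁻¹)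
    (h : a * b * c = 1) (h1 : ¬ WellOrderingRel z x) (h2 : ¬ WellOrderingRel z y) :
    Par x z ∨ Par y z := by
  by_cases hxz : x = z
  · subst hxz
    by_cases hyz : y = x
    · subst hyz
      exact (no_cube hx ha hb hc h).elim
    · have hr : WellOrderingRel y x := by
        rcases tri hyz with h3 | h3
        · exact h3
        · exact absurd h3 h2
      right
      refine par_aux hy hx hb ha hc hr ?_
      have : c * (a * b * c) = c := by rw [h, mul_one]
      have h4 : c * a * b * c = 1 * c := by rw [one_mul]; simpa [mul_assoc] using this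
      exact mul_right_cancel h4
  · have hrx : WellOrderingRel x z := by
      rcases tri hxz with h3 | h3
      · exact h3
      · exact absurd h3 h1
    by_cases hyz : y = z
    · subst hyz
      left
      refine par_aux hx hy ha hc hb hrx ?_
      -- `b * c * a = 1`
      have : a⁻¹ * (a * b * c) = a⁻¹ := by rw [h, mul_one]
      have h4 : b * c = a⁻¹ := by simpa [mul_assoc] using this
      rw [h4, inv_mul_cancel]
    · have hry : WellOrderingRel y z := by
        rcases tri hyz with h3 | h3
        · exact h3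
        · exact absurd h3 h2
      exfalso
      refine not_two hx hy hz hrx hry ?_
      have hc' : c = (a * b)⁻¹ := eq_inv_of_mul_eq_one_right h
      have ha' : a ∈ Subgroup.closure {x, y} :=
        mem_pm (Subgroup.subset_closure (by simp)) ha
      have hb' : b ∈ Subgroup.closure {x, y} :=
        mem_pm (Subgroup.subset_closure (by simp)) hb
      have hcc : c ∈ Subgroup.closure {x, y} := by
        rw [hc']; exact Subgroup.inv_mem _ (Subgroup.mul_mem _ ha' hb')
      exact mem_pm' hcc hc

omit [Group G] in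
theorem trans' {x y z : G} (h1 : WellOrderingRel x y) (h2 : WellOrderingRel y z) :
    WellOrderingRel x z := trans_of WellOrderingRel h1 h2

omit [Group G] in
theorem asymm' {x y : G} (h1 : WellOrderingRel x y) : ¬ WellOrderingRel y x :=
  asymm_of WellOrderingRel h1

/-- in a triangle there are a parent and a child -/
theorem par_of_tri {x y z a b c : G} (hx : x ∈ H G) (hy : y ∈ H G) (hz : z ∈ H G)
    (ha : a = x ∨ a = x⁻¹) (hb : b = y ∨ b = y⁻¹) (hc : c = z ∨ c = z⁻¹)
    (h : a * b * c = 1) : ∃ p g : G, Par p g ∧ (p = x ∨ p = y ∨ p = z) ∧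
      (g = x ∨ g = y ∨ g = z) := by
  have h' : b * c * a = 1 := by
    have : a⁻¹ * (a * b * c) = a⁻¹ := by rw [h, mul_one]
    have h4 : b * c = a⁻¹ := by simpa [mul_assoc] using this
    rw [h4, inv_mul_cancel]
  have h'' : c * a * b = 1 := by
    have : b⁻¹ * (b * c * a) = b⁻¹ := by rw [h', mul_one]
    have h4 : c * a = b⁻¹ := by simpa [mul_assoc] using this
    rw [h4, inv_mul_cancel]
  by_cases hzx : WellOrderingRel z x
  · by_cases hxy : WellOrderingRel x y
    · -- y is the largest
      rcases par_max hz hx hy hc ha hb h'' (asymm' (trans' hzx hxy)) (asymm' hxy) with h1 | h1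
      · exact ⟨z, y, h1, by simp, by simp⟩
      · exact ⟨x, y, h1, by simp, by simp⟩
    · rcases par_max hy hz hx hb hc ha h' hxy (asymm' hzx) with h1 | h1
      · exact ⟨y, x, h1, by simp, by simp⟩
      · exact ⟨z, x, h1, by simp, by simp⟩
  · by_cases hzy : WellOrderingRel z y
    · have hyx : ¬ WellOrderingRel y x := fun h3 => hzx (trans' hzy h3)
      rcases par_max hz hx hy hc ha hb h'' (asymm' hzy) hyx with h1 | h1
      · exact ⟨z, y, h1, by simp, by simp⟩
      · exact ⟨x, y, h1, by simp, by simp⟩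
    · rcases par_max hx hy hz ha hb hc h hzx hzy with h1 | h1
      · exact ⟨x, z, h1, by simp, by simp⟩
      · exact ⟨y, z, h1, by simp, by simp⟩

open Classical in
/-- the depth -/
noncomputable def dep : G → ℕ :=
  WellOrderingRel.isWellOrder.toIsWellFounded.wf.fix fun g rec =>
    if h : ∃ p, Par p g then rec h.choose h.choose_spec.2.2.1 + 1 else 0

theorem dep_par {p g : G} (h : Par p g) : dep g = dep p + 1 := by
  classical
  have hex : ∃ p, Par p g := ⟨p, h⟩
  have e : dep g = dep hex.choose + 1 := by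
    unfold dep
    rw [WellFounded.fix_eq, dif_pos hex]
  rw [e, par_unique hex.choose_spec h]

/-- nobody's parent -/
def Leaf (g : G) : Prop := ∀ c, ¬ Par g c

/-- the generating set -/
def K (G : Type*) [Group G] : Set G :=
  {g | g ∈ H G ∧ (Leaf g ∨ (¬ Leaf g ∧ (∀ c, Par g c → ¬ Leaf c) ∧ Even (dep g)))}

theorem not_par {p g : G} (hp : p ∈ K G) (hg : g ∈ K G) : ¬ Par p g := by
  intro h
  rcases hp.2 with h1 | ⟨-, h1, h2⟩
  · exact h1 g h
  · rcases hg.2 with h3 | ⟨-, -, h3⟩
    · exact h1 g h h3
    · rw [dep_par h] at h3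
      exact (Nat.not_even_iff_odd.2 (Even.add_one h2)) h3

theorem mem_of_par {g c : G} {S : Subgroup G} (h : Par g c) (hc : c ∈ S) : g ∈ S := by
  have h2 : c ^ 2 ∈ S := S.pow_mem hc 2
  rcases h.2.2.2 with h3 | h3
  · rwa [h3] at h2
  · rw [h3] at h2; simpa using h2

theorem closure_K : Subgroup.closure (K G) = Subgroup.closure (H G) := by
  apply le_antisymm
  · exact Subgroup.closure_mono fun x hx => hx.1
  · rw [Subgroup.closure_le]
    have leafchild : ∀ g c : G, Par g c → Leaf c → g ∈ Subgroup.closure (K G) := by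
      intro g c h1 h2
      exact mem_of_par h1 (Subgroup.subset_closure ⟨h1.2.1, Or.inl h2⟩)
    intro g hg
    by_cases hl : Leaf g
    · exact Subgroup.subset_closure ⟨hg, Or.inl hl⟩
    by_cases hc : ∃ c, Par g c ∧ Leaf c
    · obtain ⟨c, h1, h2⟩ := hc
      exact leafchild g c h1 h2
    push Not at hc
    by_cases he : Even (dep g)
    · exact Subgroup.subset_closure ⟨hg, Or.inr ⟨hl, hc, he⟩⟩
    · unfold Leaf at hl
      push Not at hl
      obtain ⟨c, h1⟩ := hl
      have hce : Even (dep c) := by
        rw [dep_par h1]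
        exact Odd.add_one (Nat.not_even_iff_odd.1 he)
      refine mem_of_par h1 ?_
      by_cases hc2 : ∃ c', Par c c' ∧ Leaf c'
      · obtain ⟨c', h3, h4⟩ := hc2
        exact leafchild c c' h3 h4
      · push Not at hc2
        exact Subgroup.subset_closure ⟨h1.2.1, Or.inr ⟨hc c h1, hc2, hce⟩⟩

theorem pm_iff {S : Set G} {a : G} (h : Pm S a) : ∃ x ∈ S, a = x ∨ a = x⁻¹ := by
  rcases h with h | h
  · exact ⟨a, h, Or.inl rfl⟩
  · exact ⟨a⁻¹, h, Or.inr (by simp)⟩

end Ga

theorem exists_triangleFree (G : Type*) [Group G] :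
    ∃ K : Set G, Subgroup.closure K = Subgroup.closure {x : G | x ^ 3 ≠ 1} ∧
      ∀ a b c, Pm K a → Pm K b → Pm K c → a * b * c ≠ 1 := by
  refine ⟨Ga.K G, Ga.closure_K.trans Ga.closure_H, ?_⟩
  intro a b c ha hb hc h
  obtain ⟨x, hx, hxa⟩ := Ga.pm_iff ha
  obtain ⟨y, hy, hyb⟩ := Ga.pm_iff hb
  obtain ⟨z, hz, hzc⟩ := Ga.pm_iff hc
  obtain ⟨p, g, hp, h1, h2⟩ := Ga.par_of_tri hx.1 hy.1 hz.1 hxa hyb hzc h
  refine Ga.not_par ?_ ?_ hp
  · rcases h1 with rfl | rfl | rfl <;> assumption
  · rcases h2 with rfl | rfl | rfl <;> assumption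

end Pool.Agent.AVD
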