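import Pool.Agent.AVD.Defs

/-!
Groups of exponent three are nilpotent.
-/

set_option autoImplicit false

namespace Pool.Agent.AVD

section

variable {Q : Type*} [Group Q]

/-- The commutator. -/
def gbc (x y : Q) : Q := x * y * x⁻¹ * y⁻¹

theorem gb_inv (h : ∀ x : Q, x ^ 3 = 1) (y : Q) : y⁻¹ = y * y := by
  rw [inv_eq_iff_mul_eq_one]
  have := h y
  rwa [pow_succ', pow_two] at this

theorem gb_cube (h : ∀ x : Q, x ^ 3 = 1) (y : Q) : y * y * y = 1 := by
  have := h y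
  rwa [pow_succ, pow_two] at this

/-- An element commutes with its conjugates. -/
theorem gb_commute (h : ∀ x : Q, x ^ 3 = 1) (x y : Q) :
    x * (y * x * y⁻¹) = (y * x * y⁻¹) * x := by
  have f1 : ∀ u v : Q, u * v * u = v⁻¹ * u⁻¹ * v⁻¹ := by
    intro u v
    have h1 : (u * v * u) * (v * u * v) = 1 := by
      rw [← gb_cube h (u * v)]; group
    rw [eq_inv_of_mul_eq_one_left h1]; group
  have y2 : y⁻¹ * y⁻¹ = y := by rw [← mul_inv_rev, ← gb_inv h y, inv_inv]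
  calc x * (y * x * y⁻¹) = (x * y * x) * y⁻¹ := by group
    _ = y⁻¹ * x⁻¹ * (y⁻¹ * y⁻¹) := by rw [f1]; group
    _ = (y * y) * x⁻¹ * y := by rw [y2, gb_inv h y]
    _ = y * ((y⁻¹)⁻¹ * x⁻¹ * (y⁻¹)⁻¹) := by group
    _ = y * (x * y⁻¹ * x) := by rw [f1 x y⁻¹]
    _ = (y * x * y⁻¹) * x := by group

/-- Conjugates of one element commute. -/
theorem gb_commute' (h : ∀ x : Q, x ^ 3 = 1) (x a b : Q) :
    (a * x * a⁻¹) * (b * x * b⁻¹) = (b * x * b⁻¹) * (a * x * a⁻¹) := by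
  have := gb_commute h (a * x * a⁻¹) (b * a⁻¹)
  have e : b * a⁻¹ * (a * x * a⁻¹) * (b * a⁻¹)⁻¹ = b * x * b⁻¹ := by group
  rwa [e] at this

/-- The product of the three conjugates under the powers of an element. -/
theorem gb_three (h : ∀ x : Q, x ^ 3 = 1) (x g : Q) :
    x * (g * x * g⁻¹) * (g⁻¹ * x * g) = 1 := by
  have h2 := gb_inv h g
  calc x * (g * x * g⁻¹) * (g⁻¹ * x * g) = x * g * x * (g⁻¹ * g⁻¹) * x * g := by group
    _ = x * g * x * g * x * g := by rw [← mul_inv_rev, ← h2, inv_inv]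
    _ = (x * g) * (x * g) * (x * g) := by group
    _ = 1 := gb_cube h _

theorem gb_add {K : Type*} [AddCommGroup K] (a b c d e : K) (h : a + d + (a + c + b + e) = 0)
    (hb : b + b + b = 0) (hc : c + c + c = 0) :
    a - b + e - c = -(a - c + d - b) := by
  have : (a - b + e - c) + (a - c + d - b)
      = (a + d + (a + c + b + e)) - (b + b + b) - (c + c + c) := by abel
  rw [h, hb, hc] at this
  exact eq_neg_of_add_eq_zero_left (by rw [this]; simp)

theorem gb_mul {K : Type*} [CommGroup K] (a b c d e : K) (h : a * d * (a * c * b * e) = 1)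
    (hb : b * b * b = 1) (hc : c * c * c = 1) :
    a * b⁻¹ * e * c⁻¹ = (a * c⁻¹ * d * b⁻¹)⁻¹ := by
  have := gb_add (K := Additive K) (Additive.ofMul a) (Additive.ofMul b) (Additive.ofMul c)
    (Additive.ofMul d) (Additive.ofMul e) h hb hc
  rw [sub_eq_add_neg, sub_eq_add_neg, sub_eq_add_neg, sub_eq_add_neg] at this
  exact this

open scoped IsMulCommutative in
/-- The double commutator is skew in the last two entries. -/
theorem gb_swap (h : ∀ x : Q, x ^ 3 = 1) (x y z : Q) :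
    gbc (gbc x y) z = (gbc (gbc x z) y)⁻¹ := by
  set S : Set Q := Set.range fun g : Q => g * x * g⁻¹ with hS
  have hcomm : ∀ u ∈ S, ∀ v ∈ S, u * v = v * u := by
    rintro _ ⟨a, rfl⟩ _ ⟨b, rfl⟩
    exact gb_commute' h x a b
  have := Subgroup.isMulCommutative_closure hcomm
  have mem : ∀ g : Q, g * x * g⁻¹ ∈ Subgroup.closure S := fun g =>
    Subgroup.subset_closure ⟨g, rfl⟩
  have memx : x ∈ Subgroup.closure S := by simpa using mem 1
  let a : Subgroup.closure S := ⟨x, memx⟩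
  let b : Subgroup.closure S := ⟨_, mem y⟩
  let c : Subgroup.closure S := ⟨_, mem z⟩
  let d : Subgroup.closure S := ⟨_, mem (y * z)⟩
  let e : Subgroup.closure S := ⟨_, mem (z * y)⟩
  have hb : b * b * b = 1 := Subtype.ext (gb_cube h _)
  have hc : c * c * c = 1 := Subtype.ext (gb_cube h _)
  -- the conjugate of `x` under `z⁻¹ y⁻¹`
  have k1 : z⁻¹ * y⁻¹ * x * (y * z) = x * (z * x * z⁻¹) * (y * x * y⁻¹) *
      (z * y * x * (z * y)⁻¹) := by
    have s1 : y⁻¹ * x * y = (x * (y * x * y⁻¹))⁻¹ :=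
      (inv_eq_of_mul_eq_one_right (gb_three h x y)).symm
    have s2 : z⁻¹ * x * z = (x * (z * x * z⁻¹))⁻¹ :=
      (inv_eq_of_mul_eq_one_right (gb_three h x z)).symm
    have s3 : z⁻¹ * (y * x * y⁻¹) * z = ((y * x * y⁻¹) * (z * (y * x * y⁻¹) * z⁻¹))⁻¹ :=
      (inv_eq_of_mul_eq_one_right (gb_three h (y * x * y⁻¹) z)).symm
    calc z⁻¹ * y⁻¹ * x * (y * z) = z⁻¹ * (y⁻¹ * x * y) * z := by group
      _ = (z⁻¹ * (y * x * y⁻¹) * z)⁻¹ * (z⁻¹ * x * z)⁻¹ := by rw [s1]; group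
      _ = ((y * x * y⁻¹) * (z * y * x * (z * y)⁻¹)) * (x * (z * x * z⁻¹)) := by
          rw [s2, s3, inv_inv, inv_inv]; group
      _ = x * (z * x * z⁻¹) * (y * x * y⁻¹) * (z * y * x * (z * y)⁻¹) := by
          have : (b * e) * (a * c) = a * c * b * e := by
            rw [mul_comm (b * e) (a * c), ← mul_assoc]
          exact congrArg Subtype.val this
  have k2 : a * d * (a * c * b * e) = 1 := by
    apply Subtype.ext
    have k0 := gb_three h x (y * z)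
    have k00 : (y * z)⁻¹ * x * (y * z) = z⁻¹ * y⁻¹ * x * (y * z) := by rw [mul_inv_rev]
    rw [k00, k1] at k0
    exact k0
  have k3 := congrArg Subtype.val (gb_mul a b c d e k2 hb hc)
  have k4 : x * (y * x * y⁻¹)⁻¹ * (z * y * x * (z * y)⁻¹) * (z * x * z⁻¹)⁻¹
    = (x * (z * x * z⁻¹)⁻¹ * (y * z * x * (y * z)⁻¹) * (y * x * y⁻¹)⁻¹)⁻¹ := k3
  have e1 : gbc (gbc x y) z
      = x * (y * x * y⁻¹)⁻¹ * (z * y * x * (z * y)⁻¹) * (z * x * z⁻¹)⁻¹ := by
    unfold gbc; group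
  have e2 : gbc (gbc x z) y
      = x * (z * x * z⁻¹)⁻¹ * (y * z * x * (y * z)⁻¹) * (y * x * y⁻¹)⁻¹ := by
    unfold gbc; group
  rw [e1, e2, k4]

theorem gb_inv_left (h : ∀ x : Q, x ^ 3 = 1) (w t : Q) : gbc w⁻¹ t = (gbc w t)⁻¹ := by
  unfold gbc
  have := gb_commute h w t
  have h2 : (t * w * t⁻¹) * w⁻¹ = w⁻¹ * (t * w * t⁻¹) := by
    rw [mul_inv_eq_iff_eq_mul, mul_assoc w⁻¹, ← this, inv_mul_cancel_left]
  calc w⁻¹ * t * (w⁻¹)⁻¹ * t⁻¹ = w⁻¹ * (t * w * t⁻¹) := by group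
    _ = (t * w * t⁻¹) * w⁻¹ := h2.symm
    _ = _ := by group

theorem gb_symm (x y : Q) : gbc y x = (gbc x y)⁻¹ := by unfold gbc; group

theorem gb_swap' (h : ∀ x : Q, x ^ 3 = 1) (x y z : Q) :
    gbc (gbc y x) z = (gbc (gbc x y) z)⁻¹ := by
  rw [gb_symm x y, gb_inv_left h]

theorem gb_four (h : ∀ x : Q, x ^ 3 = 1) (x y z t : Q) : gbc (gbc (gbc x y) z) t = 1 := by
  have s12 : ∀ x y z t : Q, gbc (gbc (gbc y x) z) t = (gbc (gbc (gbc x y) z) t)⁻¹ := by
    intro x y z t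
    rw [gb_swap' h x y z, gb_inv_left h]
  have s23 : ∀ x y z t : Q, gbc (gbc (gbc x z) y) t = (gbc (gbc (gbc x y) z) t)⁻¹ := by
    intro x y z t
    rw [gb_swap h x z y, gb_inv_left h]
  have s34 : ∀ x y z t : Q, gbc (gbc (gbc x y) t) z = (gbc (gbc (gbc x y) z) t)⁻¹ := by
    intro x y z t
    rw [gb_swap h (gbc x y) t z]
  have blk : ∀ x y z t : Q, gbc (gbc (gbc x y) z) t = gbc (gbc z t) (gbc x y) := by
    intro x y z t
    rw [gb_swap' h z (gbc x y) t, gb_swap h z (gbc x y) t, inv_inv]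
  have a1 : gbc (gbc (gbc z t) x) y = (gbc (gbc (gbc x y) z) t)⁻¹ := by
    rw [blk z t x y, blk x y z t, gb_symm]
  have a2 : gbc (gbc (gbc z t) x) y = gbc (gbc (gbc x y) z) t := by
    rw [s23 z x t y, s34 z x y t, s12 x z y t, s23 x y z t]
    simp
  have a3 : (gbc (gbc (gbc x y) z) t) * (gbc (gbc (gbc x y) z) t) = 1 := by
    rw [← eq_inv_iff_mul_eq_one, ← a1, a2]
  have a4 := gb_cube h (gbc (gbc (gbc x y) z) t)
  rwa [a3, one_mul] at a4

end

theorem exp3_nilpotent (Q : Type*) [Group Q] (h : ∀ x : Q, x ^ 3 = 1) : Group.IsNilpotent Q := by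
  refine ⟨⟨3, ?_⟩⟩
  rw [eq_top_iff]
  rintro x -
  intro y z t
  exact gb_four h x y z t

end Pool.Agent.AVD
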