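import Pool.Agent.AVD.Defs

/-!
Generators of a nilpotent group modulo the commutator subgroup.
-/

set_option autoImplicit false

namespace Pool.Agent.AVD

open scoped commutatorElement

/-- A commutator does not change when its entries are multiplied by central elements. -/
theorem comm_mul_central {G : Type*} [Group G] (a b x y : G) (hx : ∀ g : G, x * g = g * x)
    (hy : ∀ g : G, y * g = g * y) : ⁅a * x, b * y⁆ = ⁅a, b⁆ := by
  simp only [commutatorElement_def, mul_inv_rev]
  calc a * x * (b * y) * (x⁻¹ * a⁻¹) * (y⁻¹ * b⁻¹)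
      = a * (x * (b * y)) * (x⁻¹ * a⁻¹) * (y⁻¹ * b⁻¹) := by group
    _ = a * ((b * y) * x) * (x⁻¹ * a⁻¹) * (y⁻¹ * b⁻¹) := by rw [hx]
    _ = a * b * (y * a⁻¹) * (y⁻¹ * b⁻¹) := by group
    _ = a * b * (a⁻¹ * y) * (y⁻¹ * b⁻¹) := by rw [hy]
    _ = a * b * a⁻¹ * b⁻¹ := by group

theorem sup_lowerCentralSeries_eq_top (Q : Type*) [Group Q] (M : Subgroup Q)
    (h : M ⊔ commutator Q = ⊤) (k : ℕ) :
    M ⊔ (⊤ : Subgroup Q).lowerCentralSeries k = ⊤ := by
  induction k with
  | zero => simp
  | succ k ih =>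
    set N : Subgroup Q := (⊤ : Subgroup Q).lowerCentralSeries (k + 1) with hN
    have hcent : ∀ z ∈ (⊤ : Subgroup Q).lowerCentralSeries k, ∀ g : Q ⧸ N,
        (QuotientGroup.mk' N z) * g = g * (QuotientGroup.mk' N z) := by
      intro z hz g
      obtain ⟨g, rfl⟩ := QuotientGroup.mk'_surjective N g
      have : ⁅z, g⁆ ∈ N := by
        rw [hN, Subgroup.lowerCentralSeries_succ]
        exact Subgroup.commutator_mem_commutator hz (Subgroup.mem_top g)
      have h2 : (QuotientGroup.mk' N ⁅z, g⁆) = 1 := by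
        rw [← MonoidHom.mem_ker, QuotientGroup.ker_mk']; exact this
      rw [map_commutatorElement, commutatorElement_eq_one_iff_mul_comm] at h2
      exact h2
    have hle : commutator Q ≤ M ⊔ N := by
      rw [commutator_def, Subgroup.commutator_le]
      intro a _ b _
      have ha : a ∈ M ⊔ (⊤ : Subgroup Q).lowerCentralSeries k := by rw [ih]; trivial
      have hb : b ∈ M ⊔ (⊤ : Subgroup Q).lowerCentralSeries k := by rw [ih]; trivial
      rw [Subgroup.mem_sup_of_normal_right] at ha hb
      obtain ⟨a, ha, x, hx, rfl⟩ := ha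
      obtain ⟨b, hb, y, hy, rfl⟩ := hb
      have hk : (M ⊔ N) = Subgroup.comap (QuotientGroup.mk' N) (M.map (QuotientGroup.mk' N)) := by
        rw [Subgroup.comap_map_eq, QuotientGroup.ker_mk']
      rw [hk, Subgroup.mem_comap, map_commutatorElement, map_mul, map_mul,
        comm_mul_central _ _ _ _ (hcent x hx) (hcent y hy), ← map_commutatorElement]
      refine Subgroup.mem_map_of_mem _ ?_
      rw [commutatorElement_def]
      exact M.mul_mem (M.mul_mem (M.mul_mem ha hb) (M.inv_mem ha)) (M.inv_mem hb)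
    rw [eq_top_iff, ← h]
    exact sup_le le_sup_left hle

theorem closure_top_of_nilpotent (Q : Type*) [Group Q] [Group.IsNilpotent Q] (S : Set Q)
    (h : Subgroup.closure S ⊔ commutator Q = ⊤) : Subgroup.closure S = ⊤ := by
  obtain ⟨n, hn⟩ := Subgroup.nilpotent_iff_lowerCentralSeries.1 ‹Group.IsNilpotent Q›
  have := sup_lowerCentralSeries_eq_top Q _ h n
  rwa [hn, sup_bot_eq] at this

end Pool.Agent.AVD
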