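import Pool.Agent.AVD.Ga
import Pool.Agent.AVD.Gb1
import Pool.Agent.AVD.Gb2

/-!
Generating sets whose triangles are independent.
-/

set_option autoImplicit false

namespace Pool.Agent.AVD

universe u

private theorem normal_closure_pow (G : Type u) [Group G] :
    (Subgroup.closure {x : G | x ^ 3 ≠ 1}).Normal := by
  have h : Group.conjugatesOfSet {x : G | x ^ 3 ≠ 1} = {x : G | x ^ 3 ≠ 1} := by
    apply Set.Subset.antisymm
    · intro x hx
      rw [Group.mem_conjugatesOfSet_iff] at hx
      obtain ⟨a, ha, hax⟩ := hx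
      obtain ⟨c, rfl⟩ := isConj_iff.1 hax
      intro h1
      apply ha
      rw [conj_pow] at h1
      have h2 : a ^ 3 = c⁻¹ * (c * a ^ 3 * c⁻¹) * c := by group
      rw [h2, h1]
      group
    · exact Group.subset_conjugatesOfSet
  have h2 : Subgroup.closure {x : G | x ^ 3 ≠ 1} = Subgroup.normalClosure {x : G | x ^ 3 ≠ 1} := by
    rw [Subgroup.normalClosure, h]
  rw [h2]
  exact Subgroup.normalClosure_normal

private theorem zne1 : (1 : ZMod 3) ≠ 0 := by decide

private theorem zne2 : (-1 : ZMod 3) ≠ 0 := by decide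

private theorem zne3 : (1 : ZMod 3) ≠ -1 := by decide

private theorem ab_surj (Q : Type u) [Group Q] : Function.Surjective (Abelianization.of (G := Q)) :=
  QuotientGroup.mk_surjective

theorem exists_generators (G : Type u) [Group G] :
    ∃ H : Set G, (1 : G) ∉ H ∧ Subgroup.closure H = ⊤ ∧
      ∃ (I : Type u) (lam : G → I →₀ ZMod 3), (∀ x y, lam (x * y) = lam x + lam y) ∧
        (∀ h, Tri H h → ∃ (i : I) (c : ZMod 3), c ≠ 0 ∧ lam h = Finsupp.single i c) ∧
        ∀ h k, Tri H h → Tri H k → lam h = lam k → h = k := by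
  classical
  obtain ⟨K, hK, hfree⟩ := exists_triangleFree G
  set N : Subgroup G := Subgroup.closure {x : G | x ^ 3 ≠ 1} with hN
  have hNn : N.Normal := normal_closure_pow G
  have hexp : ∀ x : G ⧸ N, x ^ 3 = 1 := by
    intro x
    obtain ⟨g, rfl⟩ := QuotientGroup.mk_surjective x
    by_cases hg : g ^ 3 = 1
    · rw [← QuotientGroup.mk_pow, hg, QuotientGroup.mk_one]
    · have h1 : g ∈ N := Subgroup.subset_closure hg
      have h2 : ((g : G) : G ⧸ N) = 1 := (QuotientGroup.eq_one_iff g).2 h1
      rw [h2, one_pow]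
  have hnil : Group.IsNilpotent (G ⧸ N) := exp3_nilpotent (G ⧸ N) hexp
  have : Fact (Nat.Prime 3) := ⟨Nat.prime_three⟩
  let V : Type u := Additive (Abelianization (G ⧸ N))
  have h3 : ∀ x : V, 3 • x = 0 := by
    intro x
    obtain ⟨y, hy⟩ := ab_surj _ (Additive.toMul x)
    have h4 : (Additive.toMul x) ^ 3 = 1 := by
      rw [← hy, ← map_pow, hexp, map_one]
    exact congrArg Additive.ofMul h4
  let _ : Module (ZMod 3) V := AddCommGroup.zmodModule h3
  let b := Module.Basis.ofVectorSpace (ZMod 3) V
  let cl : G → V := fun x => Additive.ofMul (Abelianization.of (QuotientGroup.mk (s := N) x))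
  have hcl : ∀ x y, cl (x * y) = cl x + cl y := by
    intro x y
    simp only [cl, QuotientGroup.mk_mul, map_mul, ofMul_mul]
  have hclsurj : Function.Surjective cl := by
    intro v
    obtain ⟨y, hy⟩ := ab_surj _ (Additive.toMul v)
    obtain ⟨g, rfl⟩ := QuotientGroup.mk_surjective y
    exact ⟨g, congrArg Additive.ofMul hy⟩
  choose hh hhh using fun i => hclsurj (b i)
  let lam : G → (Module.Basis.ofVectorSpaceIndex (ZMod 3) V) →₀ ZMod 3 := fun x => b.repr (cl x)
  have hlam : ∀ x y, lam (x * y) = lam x + lam y := by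
    intro x y
    simp only [lam, hcl, map_add]
  have hlam1 : lam 1 = 0 := by
    have := hlam 1 1
    rw [mul_one] at this
    exact left_eq_add.1 this
  have hlaminv : ∀ x, lam x⁻¹ = - lam x := by
    intro x
    have := hlam x⁻¹ x
    rw [inv_mul_cancel, hlam1] at this
    exact eq_neg_of_add_eq_zero_left this.symm
  have hlamh : ∀ i, lam (hh i) = Finsupp.single i 1 := by
    intro i
    simp only [lam, hhh, Module.Basis.repr_self]
  have hlamK : ∀ x, Pm K x → lam x = 0 := by
    have h5 : ∀ x ∈ K, lam x = 0 := by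
      intro x hx
      have h6 : x ∈ N := by
        rw [← hK]
        exact Subgroup.subset_closure hx
      have h7 : (QuotientGroup.mk (s := N) x) = 1 := (QuotientGroup.eq_one_iff x).2 h6
      simp only [lam, cl, h7, map_one, ofMul_one, map_zero]
    intro x hx
    rcases hx with hx | hx
    · exact h5 x hx
    · have := h5 _ hx
      rw [hlaminv, neg_eq_zero] at this
      exact this
  have hK1 : ¬ Pm K 1 := fun h => hfree 1 1 1 h h h (by simp)
  have hne := zne1
  have hne' := zne2
  have hne2 := zne3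
  have hcase : ∀ x, Pm (K ∪ Set.range hh) x → (Pm K x ∧ lam x = 0) ∨
      ∃ i, (x = hh i ∧ lam x = Finsupp.single i 1) ∨
        (x = (hh i)⁻¹ ∧ lam x = Finsupp.single i (-1)) := by
    intro x hx
    rcases hx with (hx | ⟨i, hi⟩) | (hx | ⟨i, hi⟩)
    · exact Or.inl ⟨Or.inl hx, hlamK x (Or.inl hx)⟩
    · right
      refine ⟨i, Or.inl ⟨hi.symm, ?_⟩⟩
      rw [← hi, hlamh]
    · exact Or.inl ⟨Or.inr hx, hlamK x (Or.inr hx)⟩
    · right
      refine ⟨i, Or.inr ⟨by rw [hi, inv_inv], ?_⟩⟩
      have := hlamh i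
      rw [hi, hlaminv] at this
      rw [Finsupp.single_neg, ← this, neg_neg]
  have htri : ∀ h, Tri (K ∪ Set.range hh) h →
      ∃ i, (h = hh i ∧ lam h = Finsupp.single i 1) ∨
        (h = (hh i)⁻¹ ∧ lam h = Finsupp.single i (-1)) := by
    rintro h ⟨hp, a, c, ha, hc, hac⟩
    rcases hcase h hp with ⟨h1, h2⟩ | h1
    swap
    · exact h1
    exfalso
    have h4 : lam a + lam c = 0 := by rw [← hlam, ← hac, h2]
    rcases hcase a ha with ⟨ha1, ha2⟩ | ⟨i, hi⟩
    · rcases hcase c hc with ⟨hc1, hc2⟩ | ⟨j, hj⟩
      · apply hfree a c h⁻¹ ha1 hc1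
        · rcases h1 with h1 | h1
          · exact Or.inr (by rwa [inv_inv])
          · exact Or.inl h1
        · rw [← hac, mul_inv_cancel]
      · rw [ha2, zero_add] at h4
        rcases hj with ⟨_, hj⟩ | ⟨_, hj⟩
        · rw [hj, Finsupp.single_eq_zero] at h4
          exact hne h4
        · rw [hj, Finsupp.single_eq_zero] at h4
          exact hne' h4
    · rcases hcase c hc with ⟨hc1, hc2⟩ | ⟨j, hj⟩
      · rw [hc2, add_zero] at h4
        rcases hi with ⟨_, hi⟩ | ⟨_, hi⟩
        · rw [hi, Finsupp.single_eq_zero] at h4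
          exact hne h4
        · rw [hi, Finsupp.single_eq_zero] at h4
          exact hne' h4
      · have h5 : lam c = - lam a := eq_neg_of_add_eq_zero_right h4
        have h1' : h = 1 := by
          rcases hi with ⟨hi1, hi2⟩ | ⟨hi1, hi2⟩ <;> rcases hj with ⟨hj1, hj2⟩ | ⟨hj1, hj2⟩
          · exfalso
            rw [hi2, hj2, ← Finsupp.single_neg, Finsupp.single_eq_single_iff] at h5
            rcases h5 with ⟨_, h5⟩ | ⟨h5, _⟩
            · exact hne2 h5
            · exact hne h5
          · rw [hi2, hj2, ← Finsupp.single_neg, Finsupp.single_eq_single_iff] at h5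
            rcases h5 with ⟨h5, _⟩ | ⟨h5, _⟩
            · rw [hac, hi1, hj1, h5, mul_inv_cancel]
            · exact absurd h5 hne'
          · rw [hi2, hj2, ← Finsupp.single_neg, Finsupp.single_eq_single_iff] at h5
            rcases h5 with ⟨h5, _⟩ | ⟨h5, _⟩
            · rw [hac, hi1, hj1, h5, inv_mul_cancel]
            · exact absurd h5 hne
          · exfalso
            rw [hi2, hj2, ← Finsupp.single_neg, neg_neg, Finsupp.single_eq_single_iff] at h5
            rcases h5 with ⟨_, h5⟩ | ⟨h5, _⟩
            · exact hne2 h5.symm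
            · exact hne' h5
        rw [h1'] at h1
        exact hK1 h1
  refine ⟨K ∪ Set.range hh, ?_, ?_, _, lam, hlam, ?_, ?_⟩
  · rintro (h | ⟨i, hi⟩)
    · exact hK1 (Or.inl h)
    · have := hlamh i
      rw [hi, hlam1] at this
      exact hne (Finsupp.single_eq_zero.1 this.symm)
  · -- generation
    have hgen : Subgroup.closure (QuotientGroup.mk' N '' Set.range hh) = ⊤ := by
      apply closure_top_of_nilpotent
      have h6 : (Subgroup.closure (QuotientGroup.mk' N '' Set.range hh)).map
          (Abelianization.of (G := G ⧸ N)) = ⊤ := by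
        set M := (Subgroup.closure (QuotientGroup.mk' N '' Set.range hh)).map
          (Abelianization.of (G := G ⧸ N)) with hM
        have h7 : (AddSubgroup.toZModSubmodule 3 (Subgroup.toAddSubgroup M) :
            Submodule (ZMod 3) V) = ⊤ := by
          rw [eq_top_iff, ← b.span_eq, Submodule.span_le]
          rintro _ ⟨i, rfl⟩
          change Additive.toMul (b i) ∈ M
          rw [← hhh i]
          change Abelianization.of (QuotientGroup.mk (s := N) (hh i)) ∈ M
          rw [hM]
          apply Subgroup.mem_map_of_mem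
          apply Subgroup.subset_closure
          exact ⟨hh i, ⟨i, rfl⟩, rfl⟩
        rw [eq_top_iff]
        intro x _
        have h8 : (Additive.ofMul x : V) ∈ (AddSubgroup.toZModSubmodule 3
            (Subgroup.toAddSubgroup M) : Submodule (ZMod 3) V) := by
          rw [h7]
          exact Submodule.mem_top
        exact h8
      have h9 := Subgroup.comap_map_eq (Abelianization.of (G := G ⧸ N))
        (Subgroup.closure (QuotientGroup.mk' N '' Set.range hh))
      rw [h6, Subgroup.comap_top, Abelianization.ker_of] at h9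
      exact h9.symm
    rw [eq_top_iff]
    intro g _
    have h10 : (QuotientGroup.mk' N g) ∈ Subgroup.closure (QuotientGroup.mk' N '' Set.range hh) := by
      rw [hgen]
      exact Subgroup.mem_top _
    rw [← MonoidHom.map_closure] at h10
    obtain ⟨y, hy, hyg⟩ := h10
    have h11 : y⁻¹ * g ∈ N := by
      have : QuotientGroup.mk (s := N) y = QuotientGroup.mk g := hyg
      exact QuotientGroup.eq.1 this
    have h12 : y⁻¹ * g ∈ Subgroup.closure (K ∪ Set.range hh) := by
      rw [← hK] at h11
      exact Subgroup.closure_mono Set.subset_union_left h11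
    have h13 : y ∈ Subgroup.closure (K ∪ Set.range hh) :=
      Subgroup.closure_mono Set.subset_union_right hy
    have h14 : g = y * (y⁻¹ * g) := by group
    rw [h14]
    exact mul_mem h13 h12
  · intro h ht
    obtain ⟨i, hi | hi⟩ := htri h ht
    · exact ⟨i, 1, hne, hi.2⟩
    · exact ⟨i, -1, hne', hi.2⟩
  · intro h k hth htk hlk
    obtain ⟨i, hi⟩ := htri h hth
    obtain ⟨j, hj⟩ := htri k htk
    rcases hi with ⟨hi1, hi2⟩ | ⟨hi1, hi2⟩ <;> rcases hj with ⟨hj1, hj2⟩ | ⟨hj1, hj2⟩
    · rw [hi2, hj2, Finsupp.single_eq_single_iff] at hlk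
      rcases hlk with ⟨h5, _⟩ | ⟨h5, _⟩
      · rw [hi1, hj1, h5]
      · exact absurd h5 hne
    · exfalso
      rw [hi2, hj2, Finsupp.single_eq_single_iff] at hlk
      rcases hlk with ⟨_, h5⟩ | ⟨h5, _⟩
      · exact hne2 h5
      · exact hne h5
    · exfalso
      rw [hi2, hj2, Finsupp.single_eq_single_iff] at hlk
      rcases hlk with ⟨_, h5⟩ | ⟨h5, _⟩
      · exact hne2 h5.symm
      · exact hne' h5
    · rw [hi2, hj2, Finsupp.single_eq_single_iff] at hlk
      rcases hlk with ⟨h5, _⟩ | ⟨h5, _⟩
      · rw [hi1, hj1, h5]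
      · exact absurd h5 hne'

end Pool.Agent.AVD
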