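import Pool.Agent.AVD.Gb3

/-!
Unavoidable graphs in which every edge is in a triangle have immersions.
-/

set_option autoImplicit false

namespace Pool.Agent.AVD

open Pool.Agent.Helper81.Cayley

universe u v

private lemma gc_pm {G : Type u} [Group G] {H : Set G} {x y : G} (h : (cayleyGraph H).Adj x y) :
    Pm H (y * x⁻¹) := by
  unfold cayleyGraph at h
  rw [SimpleGraph.fromRel_adj] at h
  obtain ⟨-, ⟨k, hk, e⟩ | ⟨k, hk, e⟩⟩ := h
  · left
    rw [e, mul_inv_cancel_right]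
    exact hk
  · right
    rw [e, mul_inv_rev, inv_inv, mul_inv_cancel_right]
    exact hk

theorem immersion_of_unavoidable {V : Type v} (Y : SimpleGraph V)
    (hY : ∀ x y, Y.Adj x y → ∃ z, Y.Adj x z ∧ Y.Adj z y) (h : ¬ Avoidable.{u, v} Y) :
    ∃ (I : Type u) (φ : V → I →₀ ZMod 3), IsImm Y φ := by
  unfold Avoidable at h
  push Not at h
  obtain ⟨G, hG, h⟩ := h
  obtain ⟨H, h1, h2, I, lam, hlam, hedge, hinj⟩ := exists_generators G
  obtain ⟨f⟩ := h H h1 h2
  have hadj : ∀ x y, Y.Adj x y → (cayleyGraph H).Adj (f x) (f y) := fun x y e =>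
    f.toHom.map_adj e
  have htri : ∀ x y, Y.Adj x y → Tri H (f y * (f x)⁻¹) := by
    intro x y e
    obtain ⟨z, hz1, hz2⟩ := hY x y e
    refine ⟨gc_pm (hadj x y e), f y * (f z)⁻¹, f z * (f x)⁻¹, gc_pm (hadj z y hz2),
      gc_pm (hadj x z hz1), ?_⟩
    group
  refine ⟨I, fun v => lam (f v), ⟨?_, ?_⟩⟩
  · intro x y e
    obtain ⟨i, c, hc, hic⟩ := hedge _ (htri x y e)
    refine ⟨i, c, hc, ?_⟩
    have : f y = (f y * (f x)⁻¹) * f x := by group
    rw [this, hlam, hic, add_comm]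
  · intro x y z exy exz e
    have h3 := hinj _ _ (htri x y exy) (htri x z exz) (by rw [hlam, hlam]; exact congrArg (· + lam (f x)⁻¹) e)
    exact f.injective (mul_right_cancel h3)

end Pool.Agent.AVD
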