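import Pool.Agent.AVD.Defs

/-!
An immersion of the graph of the reduction gives a colouring of the edges.
-/

set_option autoImplicit false

namespace Pool.Agent.AVD

open Finsupp

/-! ### displacements -/

theorem z3_two : ∀ a b : ZMod 3, a ≠ 0 → b ≠ 0 → a + b ≠ 0 → a = b := by decide

theorem z3_line : ∀ a b c : ZMod 3, a ≠ 0 → b ≠ 0 → c ≠ 0 → a + b + c = 0 → a = b ∧ b = c := by
  decide

theorem single_line {I : Type*} (i j k : I) (a b c : ZMod 3) (ha : a ≠ 0) (hb : b ≠ 0)
    (hc : c ≠ 0) (h : single i a + single j b + single k c = 0) :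
    i = j ∧ j = k ∧ a = b ∧ b = c := by
  classical
  have hi := DFunLike.congr_fun h i
  have hj := DFunLike.congr_fun h j
  have hk := DFunLike.congr_fun h k
  simp only [Finsupp.add_apply, Finsupp.single_apply, Finsupp.coe_zero, Pi.zero_apply] at hi hj hk
  by_cases hij : i = j
  · subst hij
    by_cases hik : i = k
    · subst hik
      simp at hi
      obtain ⟨h1, h2⟩ := z3_line a b c ha hb hc hi
      exact ⟨rfl, rfl, h1, h2⟩
    · simp [hik] at hk
      exact absurd hk hc
  · by_cases hik : i = k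
    · subst hik
      simp [hij, Ne.symm hij] at hj
      exact absurd hj hb
    · simp [Ne.symm hij, Ne.symm hik] at hi
      exact absurd hi ha

/-- four steps -/
theorem single_square {I : Type*} (i j k l : I) (a b c d : ZMod 3) (ha : a ≠ 0) (hb : b ≠ 0)
    (hc : c ≠ 0) (hd : d ≠ 0) (h : single i a + single j b + single k c + single l d = 0)
    (hab : single i a + single j b ≠ 0) (hbc : single j b + single k c ≠ 0) :
    single i a + single k c = 0 := by
  classical
  have hi := DFunLike.congr_fun h i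
  have hj := DFunLike.congr_fun h j
  have hk := DFunLike.congr_fun h k
  have hl := DFunLike.congr_fun h l
  simp only [Finsupp.add_apply, Finsupp.single_apply, Finsupp.coe_zero, Pi.zero_apply] at hi hj hk hl
  by_cases hik : i = k
  · subst hik
    by_cases hij : i = j
    · subst hij
      rw [← single_add] at hab hbc
      have hab' : a + b ≠ 0 := fun h0 => hab (by rw [h0, single_zero])
      have hbc' : b + c ≠ 0 := fun h0 => hbc (by rw [h0, single_zero])
      have e1 := z3_two a b ha hb hab'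
      have e2 := z3_two b c hb hc hbc'
      subst e1
      subst e2
      exfalso
      by_cases hil : i = l
      · subst hil
        simp at hi
        revert hi ha hd
        clear * -
        revert a d
        decide
      · simp [hil] at hl
        exact hd hl
    · -- i = k, j different
      have hjl : l = j := by
        by_contra hjl
        simp [hij, hjl] at hj
        exact hb hj
      subst hjl
      simp [Ne.symm hij] at hi
      rw [← single_add, hi, single_zero]
  · exfalso
    by_cases hij : i = j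
    · subst hij
      -- k needs l, then a + b = 0
      have hkl : l = k := by
        by_contra hkl
        simp [hik, hkl] at hk
        exact hc hk
      subst hkl
      simp [Ne.symm hik] at hi
      apply hab
      rw [← single_add, hi, single_zero]
    · have hil : l = i := by
        by_contra hil
        simp [Ne.symm hij, Ne.symm hik, hil] at hi
        exact ha hi
      subst hil
      by_cases hjk : j = k
      · subst hjk
        simp [hij] at hj
        apply hbc
        rw [← single_add, hj, single_zero]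
      · simp [hij, Ne.symm hjk] at hj
        exact hb hj

/-! ### adjacency facts -/

/-- lines of the block -/
def bl3 : List ((Fin 3 → ZMod 3) × (Fin 3 → ZMod 3) × (Fin 3 → ZMod 3)) :=
  (List.finRange 3).flatMap fun i => (List.finRange 3).flatMap fun a =>
    (List.finRange 3).map fun b =>
      let d : Fin 3 → ZMod 3 := fun j =>
        if j = i then 0 else if j = i + 1 then (a.val : ZMod 3) else (b.val : ZMod 3)
      (d, (d + bv i), (d + 2 • bv i))

theorem blockLines_eq (S : Type*) :
    blockLines S = bl3.map fun l => (Nm.B l.1, Nm.B l.2.1, Nm.B l.2.2) := by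
  simp only [blockLines, bl3, List.map_flatMap, List.map_map]
  rfl

theorem bl3_mem : ∀ (d : Fin 3 → ZMod 3) (i : Fin 3), ∃ l ∈ bl3,
    (d = l.1 ∧ d + bv i = l.2.1 ∧ d + 2 • bv i = l.2.2) ∨
    (d = l.2.1 ∧ d + bv i = l.2.2 ∧ d + 2 • bv i = l.1) ∨
    (d = l.2.2 ∧ d + bv i = l.1 ∧ d + 2 • bv i = l.2.1) := by
  decide +kernel

section

variable {S I : Type*} {D : Set (S × S)}

theorem NAdj_sym' {x y : Nm S} (h : NAdj D x y) : NAdj D y x := by
  obtain ⟨e, he, h⟩ := h
  exact ⟨e, he, h.symm⟩

theorem NAdj_of_line {u v : S} (huv : (u, v) ∈ D) {a b c : Nm S} (h : (a, b, c) ∈ lines u v) :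
    NAdj D a b ∧ NAdj D b c ∧ NAdj D c a := by
  have hm : ∀ q ∈ triEdges (a, b, c), q ∈ tmpl u v := by
    intro q hq
    exact List.mem_flatMap.2 ⟨(a, b, c), h, hq⟩
  refine ⟨⟨(u, v), huv, Or.inl (hm _ ?_)⟩, ⟨(u, v), huv, Or.inl (hm _ ?_)⟩,
    ⟨(u, v), huv, Or.inl (hm _ ?_)⟩⟩ <;> simp [triEdges]

theorem NAdj_block {u v : S} (huv : (u, v) ∈ D) (d : Fin 3 → ZMod 3) (i : Fin 3) :
    NAdj D (.B d) (.B (d + bv i)) ∧ NAdj D (.B (d + bv i)) (.B (d + 2 • bv i)) ∧
      NAdj D (.B (d + 2 • bv i)) (.B d) := by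
  obtain ⟨l, hl, h⟩ := bl3_mem d i
  have hm : ((Nm.B l.1, Nm.B l.2.1, Nm.B l.2.2) : Nm S × Nm S × Nm S) ∈ lines u v := by
    unfold lines
    rw [List.mem_append]
    left
    rw [blockLines_eq]
    exact List.mem_map.2 ⟨l, hl, rfl⟩
  obtain ⟨h1, h2, h3⟩ := NAdj_of_line huv hm
  rcases h with ⟨e1, e2, e3⟩ | ⟨e1, e2, e3⟩ | ⟨e1, e2, e3⟩
  · rw [e2, e3, e1]
    exact ⟨h1, h2, h3⟩
  · rw [e2, e3, e1]
    exact ⟨h2, h3, h1⟩
  · rw [e2, e3, e1]
    exact ⟨h3, h1, h2⟩

variable {φ : Nm S → I →₀ ZMod 3}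

theorem line_third
    (hφ : ∀ x y, NAdj D x y → ∃ (i : I) (c : ZMod 3), c ≠ 0 ∧ φ y = φ x + Finsupp.single i c)
    {a b c : Nm S} (hbc : NAdj D b c) (hca : NAdj D c a) {i : I} {t : ZMod 3}
    (h : φ b = φ a + single i t) (ht : t ≠ 0) : φ c = φ a - single i t := by
  obtain ⟨j, t2, ht2, h2⟩ := hφ _ _ hbc
  obtain ⟨k, t3, ht3, h3⟩ := hφ _ _ hca
  have hsum : single i t + single j t2 + single k t3 = 0 := by
    have h4 : φ a = φ a + (single i t + single j t2 + single k t3) := by
      rw [h2, h] at h3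
      calc φ a = _ := h3
        _ = _ := by abel
    exact (add_eq_left.1 h4.symm)
  obtain ⟨hij, hjk, hab, hbc'⟩ := single_line i j k t t2 t3 ht ht2 ht3 hsum
  subst hij
  subst hjk
  subst hab
  subst hbc'
  rw [h3]
  abel

theorem square
    (hφ : ∀ x y, NAdj D x y → ∃ (i : I) (c : ZMod 3), c ≠ 0 ∧ φ y = φ x + Finsupp.single i c)
    (hinj : ∀ x y z, NAdj D x y → NAdj D x z → φ y = φ z → y = z)
    {x y z w : Nm S} (hxy : NAdj D x y) (hyz : NAdj D y z) (hzw : NAdj D z w)
    (hwx : NAdj D w x) (hxz : x ≠ z) (hyw : y ≠ w) : φ x + φ z = φ y + φ w := by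
  obtain ⟨i, a, ha, h1⟩ := hφ _ _ hxy
  obtain ⟨j, b, hb, h2⟩ := hφ _ _ hyz
  obtain ⟨k, c, hc, h3⟩ := hφ _ _ hzw
  obtain ⟨l, d, hd, h4⟩ := hφ _ _ hwx
  have hsum : single i a + single j b + single k c + single l d = 0 := by
    have h5 : φ x = φ x + (single i a + single j b + single k c + single l d) := by
      rw [h3, h2, h1] at h4
      calc φ x = _ := h4
        _ = _ := by abel
    exact (add_eq_left.1 h5.symm)
  have hab : single i a + single j b ≠ 0 := by
    intro h0
    apply hxz
    apply hinj y x z (NAdj_sym' hxy) hyz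
    rw [h2, h1, add_assoc, h0, add_zero]
  have hbc : single j b + single k c ≠ 0 := by
    intro h0
    apply hyw
    apply hinj z y w (NAdj_sym' hyz) hzw
    rw [h3, h2, add_assoc, h0, add_zero]
  have h6 := single_square i j k l a b c d ha hb hc hd hsum hab hbc
  have h7 : φ y + φ w = φ x + φ z + (single i a + single k c) := by
    rw [h3, h1]; abel
  rw [h7, h6, add_zero]

theorem z3_pm : ∀ a b : ZMod 3, a ≠ 0 → b ≠ 0 → a = b ∨ a = -b := by decide

theorem single_three (i : I) (t : ZMod 3) : single i t + single i t = -single i t := by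
  rw [← single_add, ← single_neg]
  congr 1
  revert t
  decide

end

theorem colour_of_imm {S I : Type*} (D : Set (S × S))
    (hD : ∀ e ∈ D, e.1 ≠ e.2 ∧ (e.2, e.1) ∉ D) (φ : Nm S → I →₀ ZMod 3)
    (hφ : ∀ x y, NAdj D x y → ∃ (i : I) (c : ZMod 3), c ≠ 0 ∧ φ y = φ x + Finsupp.single i c)
    (hinj : ∀ x y z, NAdj D x y → NAdj D x z → φ y = φ z → y = z) :
    ∃ c : S × S → Fin 3, ∀ e ∈ D, ∀ f ∈ D, e ≠ f →
      (e.1 = f.1 ∨ e.1 = f.2 ∨ e.2 = f.1 ∨ e.2 = f.2) → c e ≠ c f := by
  classical
  rcases D.eq_empty_or_nonempty with hemp | ⟨⟨u0, v0⟩, h0⟩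
  · exact ⟨fun _ => 0, fun e he => by rw [hemp] at he; exact absurd he (Set.notMem_empty _)⟩
  -- the basis directions
  have hblk := fun (d : Fin 3 → ZMod 3) (i : Fin 3) => NAdj_block h0 d i
  have hβ : ∀ i : Fin 3, ∃ (p : I) (c : ZMod 3), c ≠ 0 ∧
      φ (.B (bv i)) = φ (.B 0) + single p c := by
    intro i
    have h := (hblk 0 i).1
    rw [zero_add] at h
    exact hφ _ _ h
  choose p cc hcc hβ using hβ
  have hβm : ∀ i, φ (.B (2 • bv i)) = φ (.B 0) - single (p i) (cc i) := by
    intro i
    obtain ⟨_, h2, h3⟩ := hblk 0 i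
    rw [zero_add, zero_add] at h2
    rw [zero_add] at h3
    exact line_third hφ h2 h3 (hβ i) (hcc i)
  have adj0 : ∀ i : Fin 3, NAdj D (.B 0) (.B (bv i)) := by
    intro i
    have h := (hblk 0 i).1
    rwa [zero_add] at h
  have adj0m : ∀ i : Fin 3, NAdj D (.B 0) (.B (2 • bv i)) := by
    intro i
    have h := (hblk 0 i).2.2
    rw [zero_add] at h
    exact NAdj_sym' h
  -- a neighbour of `B 0` in the direction `p i` is a point of the block
  have hnb0 : ∀ z : Nm S, NAdj D (.B 0) z → ∀ (q : I) (t : ZMod 3), t ≠ 0 →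
      φ z = φ (.B 0) + single q t → ∀ i, q = p i → z = .B (bv i) ∨ z = .B (2 • bv i) := by
    intro z hz q t ht hq i hqi
    subst hqi
    rcases z3_pm t (cc i) ht (hcc i) with h | h
    · left
      apply hinj _ _ _ hz (adj0 i)
      rw [hq, hβ, h]
    · right
      apply hinj _ _ _ hz (adj0m i)
      rw [hq, hβm, h, single_neg, sub_eq_add_neg]
  have hpinj : ∀ i j, p i = p j → i = j := by
    intro i j hij
    rcases hnb0 _ (adj0 i) _ _ (hcc i) (hβ i) j hij with h | h
    · have h' : bv i = bv j := by injection h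
      revert h'
      clear * -
      revert i j
      decide
    · have h' : bv i = 2 • bv j := by injection h
      exfalso
      revert h'
      clear * -
      revert i j
      decide
  have hsq2 : ∀ i j, i ≠ j → φ (.B (bv i + bv j)) =
      φ (.B 0) + single (p i) (cc i) + single (p j) (cc j) := by
    intro i j hij
    have a1 := adj0 i
    have a2 := (hblk (bv i) j).1
    have a3 := (hblk (bv j) i).1
    rw [add_comm (bv j) (bv i)] at a3
    have a4 := adj0 j
    have h := square hφ hinj a1 a2 (NAdj_sym' a3) (NAdj_sym' a4) (by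
      intro h
      have h' : (0 : Fin 3 → ZMod 3) = bv i + bv j := by injection h
      revert h'
      clear * -
      revert i j
      decide) (by
      intro h
      have h' : bv i = bv j := by injection h
      revert h' hij
      clear * -
      revert i j
      decide)
    rw [hβ, hβ] at h
    have h' : φ (.B 0) + φ (.B (bv i + bv j)) =
        φ (.B 0) + (φ (.B 0) + single (p i) (cc i) + single (p j) (cc j)) := by
      rw [h]; abel
    exact add_left_cancel h'
  have hB1 : φ (.B 1) = φ (.B 0) + single (p 0) (cc 0) + single (p 1) (cc 1) +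
      single (p 2) (cc 2) := by
    have a1 := (hblk (bv 0) 1).1
    have a2 := (hblk (bv 0 + bv 1) 2).1
    have a3 := (hblk (bv 0 + bv 2) 1).1
    have a4 := (hblk (bv 0) 2).1
    rw [show (bv 0 + bv 1 + bv 2 : Fin 3 → ZMod 3) = 1 by decide] at a2
    rw [show (bv 0 + bv 2 + bv 1 : Fin 3 → ZMod 3) = 1 by decide] at a3
    have h := square hφ hinj a1 a2 (NAdj_sym' a3) (NAdj_sym' a4) (by
      intro h
      have h' : (bv 0 : Fin 3 → ZMod 3) = 1 := by injection h
      revert h'
      decide) (by
      intro h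
      have h' : (bv 0 + bv 1 : Fin 3 → ZMod 3) = bv 0 + bv 2 := by injection h
      revert h'
      decide)
    rw [hsq2 0 1 (by decide), hsq2 0 2 (by decide), hβ] at h
    have h' : φ (.B 0) + single (p 0) (cc 0) + φ (.B 1) =
        φ (.B 0) + single (p 0) (cc 0) + (φ (.B 0) + single (p 0) (cc 0) +
          single (p 1) (cc 1) + single (p 2) (cc 2)) := by
      rw [h]; abel
    exact add_left_cancel h'
  -- neighbours of `B 1`
  have hM : ∀ i : Fin 3, φ (.B (1 + 2 • bv i)) = φ (.B 1) - single (p i) (cc i) := by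
    intro i
    fin_cases i
    · have e : (1 + 2 • bv 0 : Fin 3 → ZMod 3) = bv 1 + bv 2 := by decide
      show φ (.B (1 + 2 • bv 0)) = φ (.B 1) - single (p 0) (cc 0)
      rw [e, hsq2 1 2 (by decide), hB1]; abel
    · have e : (1 + 2 • bv 1 : Fin 3 → ZMod 3) = bv 0 + bv 2 := by decide
      show φ (.B (1 + 2 • bv 1)) = φ (.B 1) - single (p 1) (cc 1)
      rw [e, hsq2 0 2 (by decide), hB1]; abel
    · have e : (1 + 2 • bv 2 : Fin 3 → ZMod 3) = bv 0 + bv 1 := by decide
      show φ (.B (1 + 2 • bv 2)) = φ (.B 1) - single (p 2) (cc 2)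
      rw [e, hsq2 0 1 (by decide), hB1]; abel
  have hP : ∀ i : Fin 3, φ (.B (1 + bv i)) = φ (.B 1) + single (p i) (cc i) := by
    intro i
    obtain ⟨h1, h2, h3⟩ := hblk 1 i
    have h4 : φ (.B 1) = φ (.B (1 + 2 • bv i)) + single (p i) (cc i) := by
      rw [hM]; abel
    have h5 := line_third hφ h1 h2 h4 (hcc i)
    rw [h5, hM, sub_sub, single_three, sub_neg_eq_add]
  have hnb1 : ∀ z : Nm S, NAdj D (.B 1) z → ∀ (q : I) (t : ZMod 3), t ≠ 0 →
      φ z = φ (.B 1) + single q t → ∀ i, q = p i → ∃ d, z = .B d := by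
    intro z hz q t ht hq i hqi
    subst hqi
    rcases z3_pm t (cc i) ht (hcc i) with h | h
    · refine ⟨_, hinj _ _ _ hz (hblk 1 i).1 ?_⟩
      rw [hq, hP, h]
    · refine ⟨_, hinj _ _ _ hz (NAdj_sym' (hblk 1 i).2.2) ?_⟩
      rw [hq, hM, h, single_neg, sub_eq_add_neg]
  -- the colour of an edge
  have hcol : ∀ e ∈ D, ∃ k : Fin 3,
      φ (.E 3 e.1 e.2) = φ (.P 0 e.1) + single (p k) (cc k) := by
    rintro ⟨u, v⟩ he
    have l1 := NAdj_of_line (a := .B 0) (b := .P 0 u) (c := .P 1 u) he (by simp [lines])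
    have l2 := NAdj_of_line (a := .B 1) (b := .P 2 u) (c := .P 3 u) he (by simp [lines])
    have l3 := NAdj_of_line (a := .P 0 u) (b := .E 3 u v) (c := .E 4 u v) he (by simp [lines])
    have l4 := NAdj_of_line (a := .E 3 u v) (b := .E 11 u v) (c := .E 12 u v) he
      (by simp [lines])
    have l5 := NAdj_of_line (a := .E 11 u v) (b := .P 2 u) (c := .E 13 u v) he
      (by simp [lines])
    obtain ⟨q, t, ht, hq⟩ := hφ _ _ l1.1
    obtain ⟨q', t', ht', hq'⟩ := hφ _ _ l2.1
    obtain ⟨a1, s1, hs1, h1⟩ := hφ _ _ l3.1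
    obtain ⟨a2, s2, hs2, h2⟩ := hφ _ _ l4.1
    obtain ⟨a3, s3, hs3, h3⟩ := hφ _ _ l5.1
    have hqp : ∀ i, q ≠ p i := by
      intro i hi
      rcases hnb0 _ l1.1 _ _ ht hq i hi with h | h <;> cases h
    have hqp' : ∀ i, q' ≠ p i := by
      intro i hi
      obtain ⟨d, hd⟩ := hnb1 _ l2.1 _ _ ht' hq' i hi
      cases hd
    have hsum : single q t + single a1 s1 + single a2 s2 + single a3 s3 =
        single (p 0) (cc 0) + single (p 1) (cc 1) + single (p 2) (cc 2) + single q' t' := by
      rw [h3, h2, h1, hq, hB1] at hq'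
      have h' : φ (.B 0) + (single q t + single a1 s1 + single a2 s2 + single a3 s3) =
          φ (.B 0) + (single (p 0) (cc 0) + single (p 1) (cc 1) + single (p 2) (cc 2) +
            single q' t') := by
        calc _ = φ (.B 0) + single q t + single a1 s1 + single a2 s2 + single a3 s3 := by abel
          _ = _ := hq'
          _ = _ := by abel
      exact add_left_cancel h'
    have hev : ∀ k : Fin 3, (if a1 = p k then s1 else 0) + (if a2 = p k then s2 else 0) +
        (if a3 = p k then s3 else 0) = cc k := by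
      intro k
      have h := DFunLike.congr_fun hsum (p k)
      simp only [Finsupp.add_apply, Finsupp.single_apply] at h
      rw [if_neg (hqp k), if_neg (hqp' k), zero_add, add_zero] at h
      rw [h]
      have hp : ∀ j, (if p j = p k then cc j else 0) = if j = k then cc j else 0 := by
        intro j
        by_cases hj : j = k
        · subst hj; simp
        · rw [if_neg hj, if_neg (fun h => hj (hpinj _ _ h))]
      rw [hp, hp, hp]
      fin_cases k <;> simp
    have hmem : ∀ k : Fin 3, a1 = p k ∨ a2 = p k ∨ a3 = p k := by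
      intro k
      by_contra hcon
      push Not at hcon
      have h := hev k
      rw [if_neg hcon.1, if_neg hcon.2.1, if_neg hcon.2.2] at h
      simp at h
      exact hcc k h.symm
    have n01 : p 0 ≠ p 1 := fun h => absurd (hpinj _ _ h) (by decide)
    have n02 : p 0 ≠ p 2 := fun h => absurd (hpinj _ _ h) (by decide)
    have n12 : p 1 ≠ p 2 := fun h => absurd (hpinj _ _ h) (by decide)
    have hex : ∃ k, a1 = p k ∧ a2 ≠ p k ∧ a3 ≠ p k := by
      rcases hmem 0 with e0 | e0 | e0 <;> rcases hmem 1 with e1 | e1 | e1 <;>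
        rcases hmem 2 with e2 | e2 | e2
      all_goals first
        | exact absurd (e0.symm.trans e1) n01
        | exact absurd (e0.symm.trans e2) n02
        | exact absurd (e1.symm.trans e2) n12
        | exact ⟨0, e0, by rw [e1]; exact n01.symm, by rw [e2]; exact n02.symm⟩
        | exact ⟨0, e0, by rw [e2]; exact n02.symm, by rw [e1]; exact n01.symm⟩
        | exact ⟨1, e1, by rw [e0]; exact n01, by rw [e2]; exact n12.symm⟩
        | exact ⟨1, e1, by rw [e2]; exact n12.symm, by rw [e0]; exact n01⟩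
        | exact ⟨2, e2, by rw [e0]; exact n02, by rw [e1]; exact n12⟩
        | exact ⟨2, e2, by rw [e1]; exact n12, by rw [e0]; exact n02⟩
    obtain ⟨k, hk1, hk2, hk3⟩ := hex
    refine ⟨k, ?_⟩
    have h := hev k
    rw [if_pos hk1, if_neg hk2, if_neg hk3, add_zero, add_zero] at h
    show φ (.E 3 u v) = φ (.P 0 u) + single (p k) (cc k)
    rw [h1, hk1, h]
  choose! c hc using hcol
  have hcol7 : ∀ e ∈ D, φ (.E 7 e.1 e.2) = φ (.P 0 e.2) + single (p (c e)) (cc (c e)) := by
    rintro ⟨u, v⟩ he
    have h3 := hc (u, v) he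
    have l1 := NAdj_of_line (a := .P 0 u) (b := .E 3 u v) (c := .E 4 u v) he (by simp [lines])
    have l2 := NAdj_of_line (a := .E 3 u v) (b := .E 5 u v) (c := .E 9 u v) he
      (by simp [lines])
    have l3 := NAdj_of_line (a := .E 0 u v) (b := .E 5 u v) (c := .E 6 u v) he
      (by simp [lines])
    have l4 := NAdj_of_line (a := .P 0 u) (b := .E 0 u v) (c := .E 1 u v) he (by simp [lines])
    have l5 := NAdj_of_line (a := .P 0 v) (b := .E 7 u v) (c := .E 8 u v) he (by simp [lines])
    have l6 := NAdj_of_line (a := .E 7 u v) (b := .E 5 u v) (c := .E 10 u v) he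
      (by simp [lines])
    have l7 := NAdj_of_line (a := .P 0 v) (b := .E 0 u v) (c := .E 2 u v) he (by simp [lines])
    have s1 := square hφ hinj l1.1 l2.1 (NAdj_sym' l3.1) (NAdj_sym' l4.1) (by simp)
      (by simp)
    have s2 := square hφ hinj l5.1 l6.1 (NAdj_sym' l3.1) (NAdj_sym' l7.1) (by simp)
      (by simp)
    show φ (.E 7 u v) = φ (.P 0 v) + single (p (c (u, v))) (cc (c (u, v)))
    have h4 : φ (.E 5 u v) = φ (.E 0 u v) + single (p (c (u, v))) (cc (c (u, v))) := by
      have h3' : φ (.E 3 u v) = φ (.P 0 u) + single (p (c (u, v))) (cc (c (u, v))) := h3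
      rw [h3'] at s1
      have : φ (.P 0 u) + φ (.E 5 u v) =
          φ (.P 0 u) + (φ (.E 0 u v) + single (p (c (u, v))) (cc (c (u, v)))) := by
        rw [s1]; abel
      exact add_left_cancel this
    rw [h4] at s2
    have : φ (.E 0 u v) + φ (.E 7 u v) =
        φ (.E 0 u v) + (φ (.P 0 v) + single (p (c (u, v))) (cc (c (u, v)))) := by
      rw [add_comm (φ (.E 0 u v)), ← s2]; abel
    exact add_left_cancel this
  have adj3 : ∀ e ∈ D, NAdj D (.P 0 e.1) (.E 3 e.1 e.2) := by
    rintro ⟨u, v⟩ he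
    exact (NAdj_of_line (a := .P 0 u) (b := .E 3 u v) (c := .E 4 u v) he (by simp [lines])).1
  have adj7 : ∀ e ∈ D, NAdj D (.P 0 e.2) (.E 7 e.1 e.2) := by
    rintro ⟨u, v⟩ he
    exact (NAdj_of_line (a := .P 0 v) (b := .E 7 u v) (c := .E 8 u v) he (by simp [lines])).1
  refine ⟨c, ?_⟩
  intro e he f hf hef hshare hcef
  rcases hshare with h | h | h | h
  · have h1 : (Nm.E 3 e.1 e.2 : Nm S) = .E 3 f.1 f.2 := by
      apply hinj (.P 0 e.1) _ _ (adj3 e he)
      · have := adj3 f hf
        rw [← h] at this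
        rwa [← h]
      · rw [hc e he, hc f hf, hcef, h]
    injection h1 with _ h2 h3
    exact hef (Prod.ext h2 h3)
  · have h1 : (Nm.E 3 e.1 e.2 : Nm S) = .E 7 f.1 f.2 := by
      apply hinj (.P 0 e.1) _ _ (adj3 e he)
      · rw [h]
        exact adj7 f hf
      · rw [hc e he, hcol7 f hf, hcef, h]
    injection h1 with h2
    exact absurd h2 (by decide)
  · have h1 : (Nm.E 7 e.1 e.2 : Nm S) = .E 3 f.1 f.2 := by
      apply hinj (.P 0 e.2) _ _ (adj7 e he)
      · have := adj3 f hf
        rw [← h] at this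
        rwa [← h]
      · rw [hcol7 e he, hc f hf, hcef, h]
    injection h1 with h2
    exact absurd h2 (by decide)
  · have h1 : (Nm.E 7 e.1 e.2 : Nm S) = .E 7 f.1 f.2 := by
      apply hinj (.P 0 e.2) _ _ (adj7 e he)
      · rw [h]
        exact adj7 f hf
      · rw [hcol7 e he, hcol7 f hf, hcef, h]
    injection h1 with _ h2 h3
    exact hef (Prod.ext h2 h3)

end Pool.Agent.AVD
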