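import Pool.Agent.AVD.Wd
import Pool.Agent.AVD.Gc
import Pool.Agent.AVD.Loc

/-!
If the graph of the reduction is unavoidable, the edges can be coloured.
-/

set_option autoImplicit false

namespace Pool.Agent.AVD

open Pool.Agent.Helper81.Cayley

universe u

theorem enc_mem_verts {L : EList} {x y : Nm Str} (h : NAdj {e | e ∈ L} x y) :
    enc x ∈ verts (red L) := by
  obtain ⟨e, he, h | h⟩ := h
  · exact ⟨(enc x, enc y), mem_red.2 ⟨e, he, (x, y), h, rfl, rfl⟩, Or.inl rfl⟩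
  · exact ⟨(enc y, enc x), mem_red.2 ⟨e, he, (y, x), h, rfl, rfl⟩, Or.inr rfl⟩

theorem colour_of_unavoidable (L : EList) (hL : IsSimple L)
    (h : ¬ Avoidable.{u, 0} (graphOf (red L))) : (graphOf L).lineGraph.Colorable 3 := by
  classical
  obtain ⟨I, φ, hφ⟩ := immersion_of_unavoidable (graphOf (red L)) (red_tri L hL) h
  let ψ : Nm Str → I →₀ ZMod 3 := fun m =>
    if hm : enc m ∈ verts (red L) then φ ⟨enc m, hm⟩ else 0
  have hψ : ∀ (m : Nm Str) (hm : enc m ∈ verts (red L)), ψ m = φ ⟨enc m, hm⟩ := by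
    intro m hm
    simp only [ψ, dif_pos hm]
  have hadj : ∀ (x y : Nm Str) (hxy : NAdj {e | e ∈ L} x y),
      (graphOf (red L)).Adj ⟨enc x, enc_mem_verts hxy⟩ ⟨enc y, enc_mem_verts (NAdj_symm hxy)⟩ :=
    fun x y hxy => (red_adj hL _ _).2 ⟨x, y, rfl, rfl, hxy⟩
  obtain ⟨c, hc⟩ := colour_of_imm {e | e ∈ L} (fun e he => hL e he) ψ
    (by
      intro x y hxy
      obtain ⟨i, c, hc, e⟩ := hφ.edge _ _ (hadj x y hxy)
      exact ⟨i, c, hc, by rw [hψ x (enc_mem_verts hxy), hψ y (enc_mem_verts (NAdj_symm hxy)), e]⟩)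
    (by
      intro x y z hxy hxz e
      rw [hψ y (enc_mem_verts (NAdj_symm hxy)), hψ z (enc_mem_verts (NAdj_symm hxz))] at e
      have h1 := hφ.inj _ _ _ (hadj x y hxy) (hadj x z hxz) e
      exact enc_injective (congrArg Subtype.val h1))
  -- a pair of `L` for every edge
  have hpair : ∀ e : (graphOf L).edgeSet, ∃ p : Str × Str, p ∈ L ∧
      (e : Sym2 (verts L)).map Subtype.val = s(p.1, p.2) := by
    rintro ⟨e, he⟩
    induction e using Sym2.ind with
    | _ x y =>
      rw [SimpleGraph.mem_edgeSet, graphOf_adj hL] at he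
      rcases he with he | he
      · exact ⟨_, he, rfl⟩
      · exact ⟨_, he, Sym2.eq_swap⟩
  choose p hpL hp using hpair
  have hinj : Function.Injective p := by
    intro e f hef
    have h1 := hp e
    rw [hef, ← hp f] at h1
    exact Subtype.ext (Sym2.map.injective Subtype.val_injective h1)
  refine ⟨SimpleGraph.Coloring.mk (fun e => c (p e)) ?_⟩
  intro e f hef
  rw [SimpleGraph.lineGraph_adj_iff_exists] at hef
  obtain ⟨hne, v, hv1, hv2⟩ := hef
  refine hc (p e) (hpL e) (p f) (hpL f) (fun h => hne (hinj h)) ?_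
  have h1 : (v : Str) ∈ s((p e).1, (p e).2) := by
    rw [← hp e]; exact Sym2.mem_map.2 ⟨v, hv1, rfl⟩
  have h2 : (v : Str) ∈ s((p f).1, (p f).2) := by
    rw [← hp f]; exact Sym2.mem_map.2 ⟨v, hv2, rfl⟩
  rw [Sym2.mem_iff] at h1 h2
  rcases h1 with h1 | h1 <;> rcases h2 with h2 | h2
  · exact Or.inl (h1.symm.trans h2)
  · exact Or.inr (Or.inl (h1.symm.trans h2))
  · exact Or.inr (Or.inr (Or.inl (h1.symm.trans h2)))
  · exact Or.inr (Or.inr (Or.inr (h1.symm.trans h2)))

end Pool.Agent.AVD
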