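import Pool.Agent.AVD.Defs

/-!
The names as words; elementary properties of the reduction.
-/

set_option autoImplicit false

namespace Pool.Agent.AVD

/-! ### cutting words -/

theorem cut_none : ∀ (a b : Str) (x y : List (Option Bool)),
    a.map some ++ none :: x = b.map some ++ none :: y → a = b ∧ x = y
  | [], [], x, y, h => by simpa using h
  | [], b :: bs, x, y, h => by simp at h
  | a :: as, [], x, y, h => by simp at h
  | a :: as, b :: bs, x, y, h => by
      simp only [List.map_cons, List.cons_append, List.cons.injEq, Option.some.injEq] at h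
      obtain ⟨h1, h2⟩ := h
      obtain ⟨h3, h4⟩ := cut_none as bs x y h2
      exact ⟨by rw [h1, h3], h4⟩

theorem encL_cons (e : Str × Str) (L : EList) :
    encL (e :: L) = e.1.map some ++ none :: (e.2.map some ++ none :: encL L) := by
  simp [encL]

theorem encL_injective : Function.Injective encL := by
  intro L
  induction L with
  | nil =>
    intro L' h
    cases L' with
    | nil => rfl
    | cons e L' =>
      rw [encL_cons] at h
      have h2 := congrArg List.length h
      simp [encL] at h2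
  | cons e L ih =>
    intro L' h
    cases L' with
    | nil =>
      rw [encL_cons] at h
      have h2 := congrArg List.length h
      simp [encL] at h2
    | cons f L' =>
      rw [encL_cons, encL_cons] at h
      obtain ⟨h1, h2⟩ := cut_none _ _ _ _ h
      obtain ⟨h3, h4⟩ := cut_none _ _ _ _ h2
      have h5 := ih h4
      rw [h5]
      congr 1
      exact Prod.ext h1 h3

theorem cut_true : ∀ (m n : ℕ) (x y : Str),
    List.replicate m true ++ false :: x = List.replicate n true ++ false :: y → m = n ∧ x = y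
  | 0, 0, x, y, h => by simpa using h
  | 0, n + 1, x, y, h => by simp [List.replicate_succ] at h
  | m + 1, 0, x, y, h => by simp [List.replicate_succ] at h
  | m + 1, n + 1, x, y, h => by
      simp only [List.replicate_succ, List.cons_append, List.cons.injEq, true_and] at h
      obtain ⟨h3, h4⟩ := cut_true m n x y h
      exact ⟨by rw [h3], h4⟩

theorem cut_dbl : ∀ (u v x y : Str),
    dbl u ++ true :: false :: x = dbl v ++ true :: false :: y → u = v ∧ x = y
  | [], [], x, y, h => by simpa [dbl] using h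
  | [], b :: bs, x, y, h => by
      simp [dbl] at h
      obtain ⟨h1, h2, -⟩ := h
      rw [h1] at h2
      simp at h2
  | a :: as, [], x, y, h => by
      simp [dbl] at h
      obtain ⟨h1, h2, -⟩ := h
      rw [h1] at h2
      simp at h2
  | a :: as, b :: bs, x, y, h => by
      have h' : a :: a :: (dbl as ++ true :: false :: x) =
          b :: b :: (dbl bs ++ true :: false :: y) := by
        simpa [dbl] using h
      simp only [List.cons.injEq] at h'
      obtain ⟨h1, -, h2⟩ := h'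
      obtain ⟨h3, h4⟩ := cut_dbl as bs x y h2
      exact ⟨by rw [h1, h3], h4⟩

theorem bIdx_lt (d : Fin 3 → ZMod 3) : bIdx d < 27 := by
  have h0 : (d 0).val < 3 := ZMod.val_lt _
  have h1 : (d 1).val < 3 := ZMod.val_lt _
  have h2 : (d 2).val < 3 := ZMod.val_lt _
  unfold bIdx
  omega

theorem bIdx_injective : Function.Injective bIdx := by
  intro d d' h
  have h0 : (d 0).val < 3 := ZMod.val_lt _
  have h1 : (d 1).val < 3 := ZMod.val_lt _
  have h2 : (d 2).val < 3 := ZMod.val_lt _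
  have h0' : (d' 0).val < 3 := ZMod.val_lt _
  have h1' : (d' 1).val < 3 := ZMod.val_lt _
  have h2' : (d' 2).val < 3 := ZMod.val_lt _
  unfold bIdx at h
  have e0 : (d 0).val = (d' 0).val := by omega
  have e1 : (d 1).val = (d' 1).val := by omega
  have e2 : (d 2).val = (d' 2).val := by omega
  funext j
  fin_cases j
  · exact ZMod.val_injective 3 e0
  · exact ZMod.val_injective 3 e1
  · exact ZMod.val_injective 3 e2

/-- the number of a name -/
def kd {S : Type*} : Nm S → ℕ
  | .B d => bIdx d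
  | .P i _ => 27 + i.val
  | .E j _ _ => 31 + j.val

/-- the tail of the word of a name -/
def tl : Nm Str → Str
  | .B _ => []
  | .P _ u => u
  | .E _ u v => dbl u ++ true :: false :: v

theorem enc_eq (m : Nm Str) : enc m = List.replicate (kd m) true ++ false :: tl m := by
  cases m <;> rfl

theorem enc_injective : Function.Injective enc := by
  intro m n h
  rw [enc_eq, enc_eq] at h
  obtain ⟨h1, h2⟩ := cut_true _ _ _ _ h
  cases m with
  | B d =>
    have hd := bIdx_lt d
    cases n with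
    | B d' => rw [bIdx_injective h1]
    | P i u => simp only [kd] at h1; omega
    | E j u v => simp only [kd] at h1; omega
  | P i u =>
    have hi := i.isLt
    cases n with
    | B d' => have hd := bIdx_lt d'; simp only [kd] at h1; omega
    | P i' u' =>
      simp only [kd] at h1
      have : i = i' := Fin.ext (by omega)
      rw [this]
      congr 1
    | E j u v => simp only [kd] at h1; omega
  | E j u v =>
    cases n with
    | B d' => have hd := bIdx_lt d'; simp only [kd] at h1; omega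
    | P i' u' => have hi := i'.isLt; simp only [kd] at h1; omega
    | E j' u' v' =>
      simp only [kd] at h1
      have : j = j' := Fin.ext (by omega)
      obtain ⟨h3, h4⟩ := cut_dbl _ _ _ _ h2
      rw [this, h3, h4]

theorem NAdj_symm {S : Type*} {D : Set (S × S)} {x y : Nm S} (h : NAdj D x y) : NAdj D y x := by
  obtain ⟨e, he, h⟩ := h
  exact ⟨e, he, h.symm⟩

/-- the numbers of the pairs of the template -/
def kdR : List (ℕ × ℕ) := (tmpl () ()).map fun q => (kd q.1, kd q.2)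

theorem tmpl_kd {S : Type*} (u v : S) :
    ((tmpl u v).map fun q => (kd q.1, kd q.2)) = kdR := rfl

theorem kdR_anti : ∀ p ∈ kdR, p.1 ≠ p.2 ∧ (p.2, p.1) ∉ kdR := by
  decide +kernel

theorem tmpl_kd_mem {S : Type*} {u v : S} {x y : Nm S} (h : (x, y) ∈ tmpl u v) :
    (kd x, kd y) ∈ kdR := by
  rw [← tmpl_kd u v]
  exact List.mem_map.2 ⟨(x, y), h, rfl⟩

theorem NAdj_ne {S : Type*} {D : Set (S × S)} (_hD : ∀ e ∈ D, e.1 ≠ e.2) {x y : Nm S}
    (h : NAdj D x y) : x ≠ y := by
  obtain ⟨e, _, h⟩ := h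
  rintro rfl
  rcases h with h | h <;> exact (kdR_anti _ (tmpl_kd_mem h)).1 rfl

theorem mem_tmpl {S : Type*} {u v : S} {x y : Nm S} :
    (x, y) ∈ tmpl u v ↔ ∃ l ∈ lines u v, (x = l.1 ∧ y = l.2.1) ∨ (x = l.2.1 ∧ y = l.2.2) ∨
      (x = l.2.2 ∧ y = l.1) := by
  simp [tmpl, triEdges, List.mem_flatMap]

theorem NAdj_tri {S : Type*} {D : Set (S × S)} {x y : Nm S} (h : NAdj D x y) :
    ∃ z, NAdj D x z ∧ NAdj D z y := by
  obtain ⟨e, he, h⟩ := h
  have key : ∀ a b : Nm S, (a, b) ∈ tmpl e.1 e.2 →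
      ∃ z, (z, a) ∈ tmpl e.1 e.2 ∧ (b, z) ∈ tmpl e.1 e.2 := by
    intro a b hab
    rw [mem_tmpl] at hab
    obtain ⟨l, hl, h1 | h1 | h1⟩ := hab
    · obtain ⟨rfl, rfl⟩ := h1
      exact ⟨l.2.2, mem_tmpl.2 ⟨l, hl, Or.inr (Or.inr ⟨rfl, rfl⟩)⟩,
        mem_tmpl.2 ⟨l, hl, Or.inr (Or.inl ⟨rfl, rfl⟩)⟩⟩
    · obtain ⟨rfl, rfl⟩ := h1
      exact ⟨l.1, mem_tmpl.2 ⟨l, hl, Or.inl ⟨rfl, rfl⟩⟩,
        mem_tmpl.2 ⟨l, hl, Or.inr (Or.inr ⟨rfl, rfl⟩)⟩⟩
    · obtain ⟨rfl, rfl⟩ := h1
      exact ⟨l.2.1, mem_tmpl.2 ⟨l, hl, Or.inr (Or.inl ⟨rfl, rfl⟩)⟩,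
        mem_tmpl.2 ⟨l, hl, Or.inl ⟨rfl, rfl⟩⟩⟩
  rcases h with h | h
  · obtain ⟨z, h1, h2⟩ := key _ _ h
    exact ⟨z, ⟨e, he, Or.inr h1⟩, ⟨e, he, Or.inr h2⟩⟩
  · obtain ⟨z, h1, h2⟩ := key _ _ h
    exact ⟨z, ⟨e, he, Or.inl h2⟩, ⟨e, he, Or.inl h1⟩⟩

/-- The edges of the reduction, by names. -/
theorem mem_red {L : EList} {s t : Str} : (s, t) ∈ red L ↔
    ∃ e ∈ L, ∃ q ∈ tmpl e.1 e.2, s = enc q.1 ∧ t = enc q.2 := by
  simp only [red, List.mem_flatMap, List.mem_map, Prod.mk.injEq]
  constructor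
  · rintro ⟨e, he, q, hq, h1, h2⟩
    exact ⟨e, he, q, hq, h1.symm, h2.symm⟩
  · rintro ⟨e, he, q, hq, h1, h2⟩
    exact ⟨e, he, q, hq, h1.symm, h2.symm⟩

theorem red_simple (L : EList) (_hL : IsSimple L) : IsSimple (red L) := by
  rintro ⟨s, t⟩ he
  obtain ⟨e, he, q, hq, rfl, rfl⟩ := mem_red.1 he
  have h1 := kdR_anti _ (tmpl_kd_mem (x := q.1) (y := q.2) hq)
  refine ⟨?_, ?_⟩
  · intro h
    have h2 := enc_injective h
    exact h1.1 (by rw [h2])
  · intro h
    obtain ⟨f, _, q', hq', h3, h4⟩ := mem_red.1 h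
    have h5 := enc_injective h3
    have h6 := enc_injective h4
    have h7 := tmpl_kd_mem (x := q'.1) (y := q'.2) hq'
    rw [← h5, ← h6] at h7
    exact h1.2 h7

theorem graphOf_adj {L : EList} (hL : IsSimple L) (x y : verts L) :
    (graphOf L).Adj x y ↔ ((x : Str), (y : Str)) ∈ L ∨ ((y : Str), (x : Str)) ∈ L := by
  unfold graphOf
  rw [SimpleGraph.fromRel_adj]
  constructor
  · exact fun h => h.2
  · intro h
    refine ⟨?_, h⟩
    rintro rfl
    rcases h with h | h <;> exact (hL _ h).1 rfl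

/-- Adjacency in the graph of the reduction, by names. -/
theorem red_adj {L : EList} (hL : IsSimple L) (x y : verts (red L)) :
    (graphOf (red L)).Adj x y ↔
      ∃ m n : Nm Str, (x : Str) = enc m ∧ (y : Str) = enc n ∧ NAdj {e | e ∈ L} m n := by
  rw [graphOf_adj (red_simple L hL), mem_red, mem_red]
  constructor
  · rintro (⟨e, he, q, hq, h1, h2⟩ | ⟨e, he, q, hq, h1, h2⟩)
    · exact ⟨q.1, q.2, h1, h2, e, he, Or.inl hq⟩
    · exact ⟨q.2, q.1, h2, h1, e, he, Or.inr hq⟩
  · rintro ⟨m, n, h1, h2, e, he, h | h⟩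
    · exact Or.inl ⟨e, he, (m, n), h, h1, h2⟩
    · exact Or.inr ⟨e, he, (n, m), h, h2, h1⟩

theorem red_tri (L : EList) (hL : IsSimple L) (x y : verts (red L))
    (h : (graphOf (red L)).Adj x y) :
    ∃ z, (graphOf (red L)).Adj x z ∧ (graphOf (red L)).Adj z y := by
  obtain ⟨m, n, h1, h2, h3⟩ := (red_adj hL x y).1 h
  obtain ⟨z, h4, h5⟩ := NAdj_tri h3
  have hz : enc z ∈ verts (red L) := by
    obtain ⟨e, he, h6 | h6⟩ := h4
    · exact ⟨(enc m, enc z), mem_red.2 ⟨e, he, (m, z), h6, rfl, rfl⟩, Or.inr rfl⟩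
    · exact ⟨(enc z, enc m), mem_red.2 ⟨e, he, (z, m), h6, rfl, rfl⟩, Or.inl rfl⟩
  exact ⟨⟨enc z, hz⟩, (red_adj hL _ _).2 ⟨m, z, h1, rfl, h4⟩,
    (red_adj hL _ _).2 ⟨z, n, rfl, h2, h5⟩⟩

end Pool.Agent.AVD
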